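import Pool.Agent.Work.MP_8ec85b_lc.IALearner

/-!
Analysis of the infinite-attribute learner.
-/

namespace Pool.Agent.Work.MP_8ec85b_lc

open Finset

/-- value of slot `(i, b)` on the example `x` -/
def zx {m : ℕ} (slot : Fin m → Bool → Bool ⊕ Var) (x : List Var) (i : Fin m) (b : Bool) : Bool :=
  Sum.elim id (fun a => decide (a ∈ x)) (slot i b)

/-- the target concept on lists of true variables -/
def target {m : ℕ} (g : (Fin m → Bool) → Bool) (slot : Fin m → Bool → Bool ⊕ Var)
    (x : List Var) : Bool :=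
  pairFn g (zx slot x)

def Valid {m : ℕ} (slot : Fin m → Bool → Bool ⊕ Var) (x : List Var) : Prop :=
  ∀ i, zx slot x i true ≠ zx slot x i false

def SlotInj {m : ℕ} (slot : Fin m → Bool → Bool ⊕ Var) : Prop :=
  ∀ i b i' b' a, slot i b = Sum.inr a → slot i' b' = Sum.inr a → i = i' ∧ b = b'

theorem target_true {m : ℕ} {g : (Fin m → Bool) → Bool} {slot : Fin m → Bool → Bool ⊕ Var}
    {x : List Var} : target g slot x = true ↔ Valid slot x ∧ g (fun i => zx slot x i true) = true := by
  simp [target, pairFn, Valid]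

/-- where the bit `i` of a valid example is found among the attributes of `bvec U x` -/
def sigma {m : ℕ} (slot : Fin m → Bool → Bool ⊕ Var) (U : List Var) (i : Fin m) :
    Bool ⊕ Fin (U.length + U.length) :=
  match slot i true, slot i false with
  | Sum.inr a, Sum.inr b =>
    if h : a ∈ U then Sum.inr (Fin.castAdd _ ⟨U.idxOf a, List.idxOf_lt_length_of_mem h⟩)
    else if h : b ∈ U then Sum.inr (Fin.natAdd _ ⟨U.idxOf b, List.idxOf_lt_length_of_mem h⟩)
    else Sum.inl (zx slot U i true)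
  | _, _ => Sum.inl (zx slot U i true)

theorem sigma_inr {m : ℕ} {slot : Fin m → Bool → Bool ⊕ Var} {U : List Var} {i : Fin m}
    {k : Fin (U.length + U.length)} (h : sigma slot U i = Sum.inr k) :
    (∃ a, slot i true = Sum.inr a ∧ a ∈ U ∧ (k : ℕ) = U.idxOf a) ∨
    (∃ b, slot i false = Sum.inr b ∧ b ∈ U ∧ (k : ℕ) = U.length + U.idxOf b) := by
  unfold sigma at h
  split at h
  · rename_i a b ha hb
    split_ifs at h with h1 h2
    · left
      refine ⟨a, ha, h1, ?_⟩
      rw [← Sum.inr.inj h]; rfl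
    · right
      refine ⟨b, hb, h2, ?_⟩
      rw [← Sum.inr.inj h]; rfl
  · exact absurd h (by simp)

theorem sigma_inj {m : ℕ} {slot : Fin m → Bool → Bool ⊕ Var} (hs : SlotInj slot) (U : List Var) :
    ∀ i j k, sigma slot U i = Sum.inr k → sigma slot U j = Sum.inr k → i = j := by
  intro i j k hi hj
  rcases sigma_inr hi with ⟨a, ha, haU, hk⟩ | ⟨a, ha, haU, hk⟩ <;>
  rcases sigma_inr hj with ⟨b, hb, hbU, hk'⟩ | ⟨b, hb, hbU, hk'⟩
  · have h1 : U.idxOf a = U.idxOf b := by omega
    have h2 : a = b := (List.idxOf_inj haU).1 h1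
    subst h2
    exact (hs _ _ _ _ _ ha hb).1
  · have := List.idxOf_lt_length_of_mem haU
    omega
  · have := List.idxOf_lt_length_of_mem hbU
    omega
  · have h1 : U.idxOf a = U.idxOf b := by omega
    have h2 : a = b := (List.idxOf_inj haU).1 h1
    subst h2
    exact (hs _ _ _ _ _ ha hb).1

def gU {m : ℕ} (g : (Fin m → Bool) → Bool) (slot : Fin m → Bool → Bool ⊕ Var) (U : List Var) :
    (Fin (U.length + U.length) → Bool) → Bool :=
  fun b => g (fun i => Sum.elim id b (sigma slot U i))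

def bfun (U x : List Var) : Fin (U.length + U.length) → Bool :=
  Fin.append (fun i => decide (U[i] ∈ x)) (fun i => !(decide (U[i] ∈ x)))

theorem ofFn_bfun (U x : List Var) : List.ofFn (bfun U x) = bvec U x := by
  unfold bfun bvec
  rw [List.ofFn_fin_append]
  congr 1
  · apply List.ext_getElem
    · simp
    · intro i h1 h2
      simp
  · apply List.ext_getElem
    · simp
    · intro i h1 h2
      simp

theorem zx_congr {m : ℕ} {slot : Fin m → Bool → Bool ⊕ Var} {x U : List Var} (hx : Valid slot x)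
    (hU : Valid slot U) (i : Fin m)
    (h : ∀ a b, ¬ (slot i true = Sum.inr a ∧ slot i false = Sum.inr b)) :
    zx slot x i true = zx slot U i true := by
  have h1 := hx i
  have h2 := hU i
  unfold zx at *
  rcases ha : slot i true with v | a
  · rfl
  · rcases hb : slot i false with w | b
    · rw [ha, hb] at h1 h2
      simp only [Sum.elim_inr, Sum.elim_inl, id] at h1 h2 ⊢
      cases w <;> simp_all
    · exact absurd ⟨ha, hb⟩ (h a b)

theorem gU_bfun {m : ℕ} (g : (Fin m → Bool) → Bool) {slot : Fin m → Bool → Bool ⊕ Var}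
    {x U : List Var} (hx : Valid slot x) (hU : Valid slot U) :
    gU g slot U (bfun U x) = g (fun i => zx slot x i true) := by
  unfold gU
  congr 1
  funext i
  by_cases h : ∃ a b, slot i true = Sum.inr a ∧ slot i false = Sum.inr b
  · obtain ⟨a, b, ha, hb⟩ := h
    have h1 := hx i
    have h2 := hU i
    unfold zx at h1 h2 ⊢
    rw [ha, hb] at h1 h2
    rw [ha]
    simp only [Sum.elim_inr] at h1 h2 ⊢
    unfold sigma
    rw [ha, hb]
    simp only
    split_ifs with h3 h4
    · simp only [Sum.elim_inr, bfun]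
      rw [Fin.append_left]
      simp
    · simp only [Sum.elim_inr, bfun]
      rw [Fin.append_right]
      simp only [Fin.getElem_fin, List.getElem_idxOf]
      cases hax : decide (a ∈ x) <;> cases hbx : decide (b ∈ x) <;> simp_all
    · exfalso
      simp [h3, h4] at h2
  · push Not at h
    have h1 : sigma slot U i = Sum.inl (zx slot U i true) := by
      unfold sigma
      split
      · rename_i a b ha hb
        exact absurd hb (h a b ha)
      · rfl
    rw [h1]
    show zx slot U i true = _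
    exact (zx_congr hx hU i (fun a b hab => h a b hab.1 hab.2)).symm

/-- the slots pairs witnessed as broken by some example of `N` -/
def Wit {m : ℕ} (slot : Fin m → Bool → Bool ⊕ Var) (N : List (List Var)) : Finset (Fin m) :=
  univ.filter (fun i => ∃ n ∈ N, zx slot n i true = zx slot n i false)

theorem Wit_mono {m : ℕ} (slot : Fin m → Bool → Bool ⊕ Var) (N : List (List Var)) (x : List Var) :
    Wit slot N ⊆ Wit slot (x :: N) := by
  intro i
  simp only [Wit, mem_filter, mem_univ, true_and]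
  rintro ⟨n, hn, h⟩
  exact ⟨n, List.mem_cons_of_mem _ hn, h⟩

theorem viol_false {U : List Var} {P N : List (List Var)} {x : List Var}
    (h : viol U P N x = false) :
    (∀ u ∈ U, u ∉ x → ∃ p ∈ P, u ∉ p) ∧
    (∀ f ∈ x, (∀ p ∈ P, f ∉ p) → ∀ n ∈ N, f ∉ n) ∧
    (∀ u ∈ U, ∀ w, (w ∈ x ∨ ∃ p ∈ P, w ∈ p) → (u ∈ x ↔ w ∈ x) →
      (∀ p ∈ P, ¬ (u ∈ p ↔ w ∈ p)) → ∀ n ∈ N, ¬ (u ∈ n ↔ w ∈ n)) := by
  simp only [viol, badPair, Bool.or_eq_false_iff, List.any_eq_false, Bool.and_eq_true,
    Bool.not_eq_true', decide_eq_false_iff_not, List.all_eq_true, decide_eq_true_eq,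
    List.any_eq_true, not_and, not_forall, not_exists, beq_iff_eq, decide_eq_decide,
    Bool.or_eq_true, not_or, beq_eq_false_iff_ne, ne_eq] at h
  obtain ⟨h1, h2, h3⟩ := h
  refine ⟨?_, ?_, ?_⟩
  · intro u hu hux
    obtain ⟨p, hp, hp'⟩ := h1 u hu hux
    exact ⟨p, hp, hp'⟩
  · intro f hf hP n hn
    exact h2 f hf hP n hn
  · intro u hu w hw huw hP n hn
    rcases hw with hw | ⟨p, hp, hw⟩
    · exact (h3 u hu).1 w hw huw hP n hn
    · exact (h3 u hu).2 p hp w hw huw hP n hn

theorem viol_true {U : List Var} {P N : List (List Var)} {x : List Var}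
    (h : viol U P N x = true) :
    (∃ u ∈ U, u ∉ x ∧ ∀ p ∈ P, u ∈ p) ∨
    (∃ f ∈ x, (∀ p ∈ P, f ∉ p) ∧ ∃ n ∈ N, f ∈ n) ∨
    (∃ u ∈ U, ∃ w, (w ∈ x ∨ ∃ p ∈ P, w ∈ p) ∧ (u ∈ x ↔ w ∈ x) ∧
      (∀ p ∈ P, ¬ (u ∈ p ↔ w ∈ p)) ∧ ∃ n ∈ N, (u ∈ n ↔ w ∈ n)) := by
  simp only [viol, badPair, Bool.or_eq_true, List.any_eq_true, Bool.and_eq_true,
    Bool.not_eq_true', decide_eq_false_iff_not, List.all_eq_true, decide_eq_true_eq,
    beq_iff_eq, decide_eq_decide, beq_eq_false_iff_ne, ne_eq] at h
  rcases h with ⟨u, hu, h1, h2⟩ | ⟨f, hf, h1, n, hn, h2⟩ | ⟨u, hu, h⟩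
  · exact Or.inl ⟨u, hu, h1, h2⟩
  · exact Or.inr (Or.inl ⟨f, hf, h1, n, hn, h2⟩)
  · refine Or.inr (Or.inr ⟨u, hu, ?_⟩)
    rcases h with ⟨w, hw, h1, h2, n, hn, h3⟩ | ⟨p, hp, w, hw, h1, h2, n, hn, h3⟩
    · exact ⟨w, Or.inl hw, h1, h2, n, hn, h3⟩
    · exact ⟨w, Or.inr ⟨p, hp, hw⟩, h1, h2, n, hn, h3⟩

/-- a broken pair of a non-violating example was not witnessed before -/
theorem not_mem_Wit {m : ℕ} {slot : Fin m → Bool → Bool ⊕ Var} {U : List Var}
    {P N : List (List Var)} {x : List Var} (hU : U ∈ P) (hP : ∀ p ∈ P, Valid slot p)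
    (hv : viol U P N x = false) {i : Fin m} (hi : zx slot x i true = zx slot x i false) :
    i ∉ Wit slot N := by
  obtain ⟨h1, h2, h3⟩ := viol_false hv
  simp only [Wit, mem_filter, mem_univ, true_and, not_exists, not_and]
  intro n hn
  have hPi : ∀ p ∈ P, zx slot p i true ≠ zx slot p i false := fun p hp => hP p hp i
  -- one variable slot and one constant slot
  have mixed : ∀ (a : Var) (v : Bool), (∀ p ∈ P, decide (a ∈ p) ≠ v) → decide (a ∈ x) = v →
      decide (a ∈ n) ≠ v := by
    intro a v hpv hxv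
    cases v
    · exfalso
      have ha : a ∉ x := by simpa using hxv
      have haU : a ∈ U := by simpa using hpv U hU
      obtain ⟨p, hp, hap⟩ := h1 a haU ha
      exact hpv p hp (by simpa using hap)
    · have ha : a ∈ x := by simpa using hxv
      have := h2 a ha (fun p hp hap => hpv p hp (by simpa using hap)) n hn
      simpa using this
  have both : ∀ u w : Var, u ∈ U → (∀ p ∈ P, ¬ (u ∈ p ↔ w ∈ p)) → (u ∈ x ↔ w ∈ x) →
      ¬ (u ∈ n ↔ w ∈ n) := by
    intro u w hu hp hx
    by_cases hw : w ∈ x ∨ ∃ p ∈ P, w ∈ p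
    · exact h3 u hu w hw hx hp n hn
    · exfalso
      push Not at hw
      have hux : u ∉ x := fun h => hw.1 (hx.1 h)
      obtain ⟨p, hpP, hup⟩ := h1 u hu hux
      exact hp p hpP (iff_of_false hup (hw.2 p hpP))
  unfold zx at hi hPi ⊢
  rcases ha : slot i true with v | a <;> rcases hb : slot i false with w | b <;>
    rw [ha, hb] at hi hPi
  · exact absurd hi (hPi U hU)
  · simp only [Sum.elim_inl, Sum.elim_inr, id] at hi hPi ⊢
    exact fun h => mixed b v (fun p hp h' => hPi p hp h'.symm) hi.symm h.symm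
  · simp only [Sum.elim_inl, Sum.elim_inr, id] at hi hPi ⊢
    exact mixed a w hPi hi
  · simp only [Sum.elim_inr, ne_eq, decide_eq_decide] at hi hPi ⊢
    have hUab := hPi U hU
    by_cases haU : a ∈ U
    · exact both a b haU hPi hi
    · have hbU : b ∈ U := by
        by_contra hbU
        exact hUab (iff_of_false haU hbU)
      intro h
      exact both b a hbU (fun p hp h' => hPi p hp h'.symm) hi.symm h.symm

end Pool.Agent.Work.MP_8ec85b_lc
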