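import Pool.Agent.Work.MP_8ec85b_lc.Lib2

/-!
Substitutions in projection- and embedding-closed classes, and the paired class of a class.
-/

namespace Pool.Agent.Work.MP_8ec85b_lc

open Function

theorem subst_mem (C : ConceptClass) (hE : C.EmbeddingClosed) (hP : C.ProjectionClosed) {m N : ℕ}
    (g : (Fin m → Bool) → Bool) (hg : C.mem m g) (σ : Fin m → Bool ⊕ Fin N)
    (hσ : ∀ i j k, σ i = Sum.inr k → σ j = Sum.inr k → i = j) :
    C.mem N (fun x => g (fun i => Sum.elim id x (σ i))) ∧
      C.size N (fun x => g (fun i => Sum.elim id x (σ i))) ≤ C.size m g := by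
  classical
  let I := {i : Fin m // ∃ k, σ i = Sum.inr k}
  let e0 : I ≃ Fin (Fintype.card I) := Fintype.equivFin I
  let e1 : Fin (Fintype.card I) ↪ Fin m :=
    ⟨fun j => (e0.symm j).1, fun a b h => e0.symm.injective (Subtype.ext h)⟩
  have he1 : ∀ j, ∃ k, σ (e1 j) = Sum.inr k := fun j => (e0.symm j).2
  choose v hv using he1
  let e2 : Fin (Fintype.card I) ↪ Fin N :=
    ⟨v, fun a b h => e1.injective (hσ _ _ (v a) (hv a) (by rw [hv b, h]))⟩
  let a : Fin m → Bool := fun i => Sum.elim id (fun _ => false) (σ i)
  have h1 := hP _ _ e1 a g hg
  have h2 := hE _ _ e2 _ h1.1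
  have key : (fun x : Fin N → Bool => (fun y => g (extend e1 y a)) (fun i => x (e2 i))) =
      fun x => g (fun i => Sum.elim id x (σ i)) := by
    funext x
    show g _ = g _
    congr 1
    funext i
    by_cases hi : ∃ j, e1 j = i
    · obtain ⟨j, rfl⟩ := hi
      rw [e1.injective.extend_apply, hv]
      rfl
    · rw [extend_apply' _ _ _ hi]
      rcases hs : σ i with b | k
      · simp [a, hs]
      · exfalso
        apply hi
        refine ⟨e0 ⟨i, k, hs⟩, ?_⟩
        show (e0.symm (e0 ⟨i, k, hs⟩)).1 = i
        rw [Equiv.symm_apply_apply]
  rw [key] at h2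
  exact ⟨h2.1, h2.2.trans h1.2⟩

/-- The paired version of `g`: the slots `(i, true)` and `(i, false)` must have different
values, and then the value is that of `g` at the slots `(i, true)`. -/
def pairFn {m : ℕ} (g : (Fin m → Bool) → Bool) (z : Fin m → Bool → Bool) : Bool :=
  decide (∀ i, z i true ≠ z i false) && g (fun i => z i true)

/-- `c` arises from the paired version of a concept by replacing slots by constants or
different variables; `s` is the size of this representation. -/
def PRep (G : ConceptClass) (N : ℕ) (c : (Fin N → Bool) → Bool) (s : ℕ) : Prop :=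
  ∃ (m : ℕ) (g : (Fin m → Bool) → Bool) (ρ : Fin m × Bool → Bool ⊕ Fin N),
    G.mem m g ∧ (∀ i j k, ρ i = Sum.inr k → ρ j = Sum.inr k → i = j) ∧ G.size m g + 2 * m = s ∧
    c = fun x => pairFn g (fun i b => Sum.elim id x (ρ (i, b)))

/-- The paired class. -/
noncomputable def paired (G : ConceptClass) : ConceptClass where
  mem := fun N c => ∃ s, PRep G N c s
  size := fun N c => sInf {s | PRep G N c s}

theorem paired_rep {G : ConceptClass} {N : ℕ} {c : (Fin N → Bool) → Bool}
    (h : (paired G).mem N c) : PRep G N c ((paired G).size N c) :=
  Nat.sInf_mem h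

theorem paired_size_le {G : ConceptClass} {N : ℕ} {c : (Fin N → Bool) → Bool} {s : ℕ}
    (h : PRep G N c s) : (paired G).size N c ≤ s :=
  Nat.sInf_le h

theorem paired_embedding (G : ConceptClass) : (paired G).EmbeddingClosed := by
  intro n₁ n₂ e c hc
  obtain ⟨m, g, ρ, hg, hρ, hs, hc'⟩ := paired_rep hc
  have : PRep G n₂ (fun x => c (fun i => x (e i))) ((paired G).size n₁ c) := by
    refine ⟨m, g, fun p => Sum.map id e (ρ p), hg, ?_, hs, ?_⟩
    · intro i j k hi hj
      rcases hi' : ρ i with b | k1
      · simp [hi'] at hi
      · rcases hj' : ρ j with b | k2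
        · simp [hj'] at hj
        · simp only [hi', Sum.map_inr, Sum.inr.injEq] at hi
          simp only [hj', Sum.map_inr, Sum.inr.injEq] at hj
          have : k1 = k2 := e.injective (hi.trans hj.symm)
          subst this
          exact hρ i j k1 hi' hj'
    · rw [hc']
      funext x
      show pairFn g _ = pairFn g _
      congr 1
      funext i b
      dsimp only
      rcases ρ (i, b) with b | k <;> rfl
  exact ⟨⟨_, this⟩, paired_size_le this⟩

theorem paired_projection (G : ConceptClass) : (paired G).ProjectionClosed := by
  classical
  intro n₁ n₂ e a c hc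
  obtain ⟨m, g, ρ, hg, hρ, hs, hc'⟩ := paired_rep hc
  have : PRep G n₁ (fun y => c (extend e y a)) ((paired G).size n₂ c) := by
    refine ⟨m, g, fun p => Sum.elim Sum.inl
      (fun k => if h : ∃ j, e j = k then Sum.inr h.choose else Sum.inl (a k)) (ρ p), hg, ?_, hs, ?_⟩
    · intro i j k hi hj
      rcases hi' : ρ i with b | k1
      · simp [hi'] at hi
      · rcases hj' : ρ j with b | k2
        · simp [hj'] at hj
        · simp only [hi', Sum.elim_inr] at hi
          simp only [hj', Sum.elim_inr] at hj
          split_ifs at hi with h1
          split_ifs at hj with h2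
          have e1 := h1.choose_spec
          have e2 := h2.choose_spec
          rw [Sum.inr.inj hi] at e1
          rw [Sum.inr.inj hj] at e2
          have : k1 = k2 := e1.symm.trans e2
          subst this
          exact hρ i j k1 hi' hj'
    · rw [hc']
      funext y
      show pairFn g _ = pairFn g _
      congr 1
      funext i b
      dsimp only
      rcases ρ (i, b) with b | k
      · rfl
      · simp only [Sum.elim_inr]
        split_ifs with h
        · have := h.choose_spec
          conv_lhs => rw [← this]
          rw [e.injective.extend_apply]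
          rfl
        · rw [extend_apply' _ _ _ h]
          rfl
  exact ⟨⟨_, this⟩, paired_size_le this⟩

theorem paired_fewRelevant (G : ConceptClass) : (paired G).FewRelevant := by
  classical
  refine ⟨1, fun n c hc => ?_⟩
  obtain ⟨m, g, ρ, hg, hρ, hs, hc'⟩ := paired_rep hc
  have hsub : {i : Fin n | Relevant c i} ⊆
      ((Finset.univ : Finset (Fin m × Bool)).image (fun p => (ρ p).elim (fun _ => none) some)).eraseNone := by
    intro i hi
    simp only [Finset.mem_coe, Finset.mem_eraseNone, Finset.mem_image, Finset.mem_univ, true_and]
    by_contra hcon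
    push Not at hcon
    obtain ⟨x, hx⟩ := hi
    apply hx
    rw [hc']
    show pairFn g _ = pairFn g _
    congr 1
    funext j b
    rcases hj : ρ (j, b) with b | k
    · rfl
    · have : k ≠ i := by
        rintro rfl
        exact hcon (j, b) (by rw [hj]; rfl)
      simp [Function.update_of_ne this]
  have h1 := Set.ncard_le_ncard hsub (Finset.finite_toSet _)
  rw [Set.ncard_coe_finset] at h1
  have h2 := Finset.card_eraseNone_le (s := (Finset.univ : Finset (Fin m × Bool)).image
    (fun p => (ρ p).elim (fun _ => none) some))
  have h3 := Finset.card_image_le (s := (Finset.univ : Finset (Fin m × Bool)))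
    (f := fun p => (ρ p).elim (fun _ => none) (some : Fin n → Option (Fin n)))
  have h4 : (Finset.univ : Finset (Fin m × Bool)).card = 2 * m := by
    simp [Fintype.card_prod, mul_comm]
  simp only [pow_one]
  omega

/-- a concept only depends on its relevant variables -/
theorem agree_of_relevant {n : ℕ} (c : (Fin n → Bool) → Bool) (x y : Fin n → Bool)
    (h : ∀ i, Relevant c i → x i = y i) : c x = c y := by
  classical
  have key : ∀ S : Finset (Fin n), (∀ i ∈ S, ¬ Relevant c i) →
      c (fun i => if i ∈ S then y i else x i) = c x := by
    intro S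
    induction S using Finset.induction_on with
    | empty => intro _; simp
    | insert i S hi ih =>
      intro hS
      have h1 := ih (fun j hj => hS j (Finset.mem_insert_of_mem hj))
      have h2 := hS i (Finset.mem_insert_self _ _)
      rw [← h1]
      set z : Fin n → Bool := fun i => if i ∈ S then y i else x i with hz
      have h3 : ∀ b b' : Bool, c (Function.update z i b) = c (Function.update z i b') := by
        unfold Relevant at h2
        push Not at h2
        intro b b'
        cases b <;> cases b' <;> simp [h2 z]
      have h4 : (fun j => if j ∈ insert i S then y j else x j) = Function.update z i (y i) := by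
        funext j
        by_cases hj : j = i
        · subst hj; simp
        · simp [hj, hz]
      rw [h4, h3 (y i) (z i), Function.update_eq_self]
  have := key (Finset.univ.filter (fun i => ¬ Relevant c i)) (by simp)
  rw [← this]
  congr 1
  funext i
  by_cases hi : Relevant c i
  · simp [hi, h i hi]
  · simp [hi]

/-- Doubling: the vector followed by its complement. -/
def dbl {n : ℕ} (x : Fin n → Bool) : Fin (n + n) → Bool := Fin.append x (fun i => !(x i))

theorem exists_paired {G : ConceptClass} (hP : G.ProjectionClosed) {n : ℕ}
    (g : (Fin n → Bool) → Bool) (hg : G.mem n g) :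
    ∃ c, (paired G).mem (n + n) c ∧
      (paired G).size (n + n) c ≤ G.size n g + 2 * {i : Fin n | Relevant g i}.ncard ∧
      ∀ x, c (dbl x) = g x := by
  classical
  let R : Finset (Fin n) := Finset.univ.filter (fun i => Relevant g i)
  have hR : {i : Fin n | Relevant g i}.ncard = R.card := by
    rw [← Set.ncard_coe_finset]; congr 1; ext i; simp [R]
  let e : Fin R.card ↪ Fin n := (R.orderEmbOfFin rfl).toEmbedding
  let g0 : (Fin R.card → Bool) → Bool := fun y => g (extend e y (fun _ => false))
  have h0 := hP _ _ e (fun _ => false) g hg
  let ρ : Fin R.card × Bool → Bool ⊕ Fin (n + n) := fun p =>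
    Sum.inr (if p.2 = true then Fin.castAdd n (e p.1) else Fin.natAdd n (e p.1))
  let c : (Fin (n + n) → Bool) → Bool := fun x => pairFn g0 (fun i b => Sum.elim id x (ρ (i, b)))
  have hrep : PRep G (n + n) c (G.size R.card g0 + 2 * R.card) := by
    refine ⟨R.card, g0, ρ, h0.1, ?_, rfl, rfl⟩
    rintro ⟨i, a⟩ ⟨j, b⟩ k hi hj
    have hij := Sum.inr.inj (hi.trans hj.symm)
    cases a <;> cases b
    · simp only [Bool.false_eq_true, if_false] at hij
      have := e.injective (Fin.natAdd_injective _ _ hij)
      rw [this]
    · exfalso
      simp only [Bool.false_eq_true, if_false, if_true] at hij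
      have := congrArg Fin.val hij
      simp only [Fin.val_natAdd, Fin.val_castAdd] at this
      have := (e j).isLt
      omega
    · exfalso
      simp only [Bool.false_eq_true, if_false, if_true] at hij
      have := congrArg Fin.val hij
      simp only [Fin.val_natAdd, Fin.val_castAdd] at this
      have := (e i).isLt
      omega
    · simp only [if_true] at hij
      have := e.injective (Fin.castAdd_injective _ _ hij)
      rw [this]
  refine ⟨c, ⟨_, hrep⟩, ?_, ?_⟩
  · rw [hR]
    have := paired_size_le hrep
    have := h0.2
    show (paired G).size (n + n) c ≤ _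
    have h1 : G.size R.card g0 ≤ G.size n g := h0.2
    omega
  · intro x
    have h1 : ∀ i, Sum.elim id (dbl x) (ρ (i, true)) = x (e i) := by
      intro i
      simp [ρ, dbl]
    have h2 : ∀ i, Sum.elim id (dbl x) (ρ (i, false)) = !(x (e i)) := by
      intro i
      show Fin.append x (fun i => !(x i)) (Fin.natAdd n (e i)) = _
      rw [Fin.append_right]
    show pairFn g0 _ = _
    unfold pairFn
    simp only [h1, h2]
    have h3 : decide (∀ i : Fin R.card, x (e i) ≠ !(x (e i))) = true := by
      simp
    rw [h3, Bool.true_and]
    show g _ = g x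
    apply agree_of_relevant
    intro i hi
    have : i ∈ Set.range e := by
      have h4 : Set.range e = (R : Set (Fin n)) := by
        simp [e]
      rw [h4]; simp [R, hi]
    obtain ⟨j, rfl⟩ := this
    rw [e.injective.extend_apply]

end Pool.Agent.Work.MP_8ec85b_lc
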