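import Mathlib

/-!
Definitions for MP_8ec85b_lc: polynomial time as a function algebra on binary trees, on-line
learners, and the three learning models (mistake bound over the cube, attribute efficient,
infinite attribute).
-/

namespace Pool.Agent.Work.MP_8ec85b_lc

/-- Binary trees: the data on which algorithms work. -/
inductive D : Type
  | nil : D
  | cons : D → D → D

namespace D

/-- Number of nodes of a tree, leaves included. -/
def size : D → ℕ
  | nil => 1
  | cons a b => a.size + b.size + 1

/-- Left subtree (`nil` for a leaf). -/
def head : D → D
  | nil => nil
  | cons a _ => a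

/-- Right subtree (`nil` for a leaf). -/
def tail : D → D
  | nil => nil
  | cons _ b => b

/-- `x` if it has at most `B` nodes, and the leaf otherwise. -/
def clip (B : ℕ) (x : D) : D := if x.size ≤ B then x else nil

/-- Recursion along the list `cons a₁ (cons a₂ (... nil))` in which every intermediate result
with more than `B` nodes is replaced by the leaf; `x` is a parameter. -/
def brec (B : ℕ) (f : D → D) (z x : D) : D → D
  | nil => clip B z
  | cons a t => clip B (f (cons a (cons (brec B f z x t) x)))

end D

open Classical in
/-- The polynomial-time computable functions on binary trees, as a function algebra: basic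
tree operations, equality test, composition, case distinction, and recursion on lists with all
intermediate results bounded by a polynomial in the size of the input. -/
inductive PT : (D → D) → Prop
  | id : PT (fun x => x)
  | nil : PT (fun _ => D.nil)
  | head : PT D.head
  | tail : PT D.tail
  | cons {f g : D → D} : PT f → PT g → PT (fun x => D.cons (f x) (g x))
  | comp {f g : D → D} : PT f → PT g → PT (fun x => f (g x))
  | eq : PT (fun x => if x.head = x.tail then D.cons D.nil D.nil else D.nil)
  | ite {c f g : D → D} : PT c → PT f → PT g →
      PT (fun x => if c x = D.nil then g x else f x)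
  | brec {f g l : D → D} (k : ℕ) : PT f → PT g → PT l →
      PT (fun x => D.brec ((x.size + 2) ^ k) f (g x) x (l x))

/-- Types whose elements are written as binary trees. -/
class Enc (α : Type) where
  enc : α → D

export Enc (enc)

instance : Enc D := ⟨fun x => x⟩

instance : Enc Bool := ⟨fun b => if b then D.cons D.nil D.nil else D.nil⟩

instance {α β : Type} [Enc α] [Enc β] : Enc (α × β) := ⟨fun p => D.cons (enc p.1) (enc p.2)⟩

instance {α : Type} [Enc α] : Enc (List α) :=
  ⟨fun l => l.foldr (fun a t => D.cons (enc a) t) D.nil⟩

/-- `f` is computable in polynomial time. -/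
def Poly {α β : Type} [Enc α] [Enc β] (f : α → β) : Prop :=
  ∃ F : D → D, PT F ∧ ∀ a, F (enc a) = enc (f a)

/-- A deterministic on-line learner: initial state, prediction, update after the true label. -/
structure Learner (X : Type) where
  init : D
  pred : D → X → Bool
  upd : D → X → Bool → D

/-- Predictions and updates take time polynomial in the size of the state and the example. -/
def Learner.Feasible {X : Type} [Enc X] (A : Learner X) : Prop :=
  Poly (fun q : D × X => A.pred q.1 q.2) ∧
  Poly (fun q : D × (X × Bool) => A.upd q.1 q.2.1 q.2.2)

/-- State reached from `s` after a sequence of labelled examples. -/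
def Learner.final {X : Type} (A : Learner X) : D → List (X × Bool) → D
  | s, [] => s
  | s, e :: es => A.final (A.upd s e.1 e.2) es

/-- Number of mistakes made from state `s` on a sequence of labelled examples. -/
def Learner.mistakes {X : Type} (A : Learner X) : D → List (X × Bool) → ℕ
  | _, [] => 0
  | s, e :: es => (if A.pred s e.1 = e.2 then 0 else 1) + A.mistakes (A.upd s e.1 e.2) es

/-- A concept class: for each `n` a set of Boolean functions of `n` variables, and a size for
every function. -/
structure ConceptClass where
  mem : ∀ n : ℕ, ((Fin n → Bool) → Bool) → Prop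
  size : ∀ n : ℕ, ((Fin n → Bool) → Bool) → ℕ

/-- Embedding-closed: a concept placed on any `n₁` of `n₂` variables is a concept, of no larger
size. -/
def ConceptClass.EmbeddingClosed (C : ConceptClass) : Prop :=
  ∀ (n₁ n₂ : ℕ) (e : Fin n₁ ↪ Fin n₂) (c : (Fin n₁ → Bool) → Bool), C.mem n₁ c →
    C.mem n₂ (fun x => c (fun i => x (e i))) ∧ C.size n₂ (fun x => c (fun i => x (e i))) ≤ C.size n₁ c

/-- Projection-closed: fixing the values (to those of `a`) of all variables outside the range
of `e` gives a concept, of no larger size. -/
def ConceptClass.ProjectionClosed (C : ConceptClass) : Prop :=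
  ∀ (n₁ n₂ : ℕ) (e : Fin n₁ ↪ Fin n₂) (a : Fin n₂ → Bool) (c : (Fin n₂ → Bool) → Bool), C.mem n₂ c →
    C.mem n₁ (fun y => c (Function.extend e y a)) ∧
      C.size n₁ (fun y => c (Function.extend e y a)) ≤ C.size n₂ c

/-- Variable `i` is relevant for `c`: changing it alone can change the value. -/
def Relevant {n : ℕ} (c : (Fin n → Bool) → Bool) (i : Fin n) : Prop :=
  ∃ x : Fin n → Bool, c (Function.update x i true) ≠ c (Function.update x i false)

/-- The number of relevant variables is polynomially bounded in the size. -/
def ConceptClass.FewRelevant (C : ConceptClass) : Prop :=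
  ∃ k : ℕ, ∀ (n : ℕ) (c : (Fin n → Bool) → Bool), C.mem n c →
    {i : Fin n | Relevant c i}.ncard ≤ (C.size n c + 2) ^ k

/-- The labelled sequence presented to a learner over the cube; an example is given as the list
of its bits. -/
def cubeRun {n : ℕ} (c : (Fin n → Bool) → Bool) (xs : List (Fin n → Bool)) :
    List (List Bool × Bool) :=
  xs.map (fun x => (List.ofFn x, c x))

/-- Learnable in the mistake-bound model over the cube: polynomially many (in `n` and the size)
mistakes, polynomial time per trial (the states stay of polynomial size and the update and
prediction are polynomial-time functions). -/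
def ConceptClass.MBLearnable (C : ConceptClass) : Prop :=
  ∃ A : Learner (List Bool), A.Feasible ∧ ∃ k : ℕ,
    ∀ (n : ℕ) (c : (Fin n → Bool) → Bool), C.mem n c → ∀ xs : List (Fin n → Bool),
      A.mistakes A.init (cubeRun c xs) ≤ (n + C.size n c + 2) ^ k ∧
      (A.final A.init (cubeRun c xs)).size ≤ (n + C.size n c + 2) ^ k

/-- Attribute-efficiently learnable: as `MBLearnable`, with a number of mistakes polynomial in
the size and polylogarithmic in `n`. -/
def ConceptClass.AELearnable (C : ConceptClass) : Prop :=
  ∃ A : Learner (List Bool), A.Feasible ∧ ∃ k : ℕ,
    ∀ (n : ℕ) (c : (Fin n → Bool) → Bool), C.mem n c → ∀ xs : List (Fin n → Bool),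
      A.mistakes A.init (cubeRun c xs) ≤ (C.size n c + 2) ^ k * (Nat.log 2 n + 2) ^ k ∧
      (A.final A.init (cubeRun c xs)).size ≤ (n + C.size n c + 2) ^ k

/-- The variables of the infinite-attribute model: there is one for every binary string. -/
abbrev Var : Type := List Bool

/-- The labelled sequence presented to a learner in the infinite-attribute model, for the
concept `c` placed on the variables `v 0, ..., v (n-1)`; an example is the list of its true
variables. -/
def infRun {n : ℕ} (c : (Fin n → Bool) → Bool) (v : Fin n → Var) (xs : List (List Var)) :
    List (List Var × Bool) :=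
  xs.map (fun x => (x, c (fun i => decide (v i ∈ x))))

/-- Learnable in the infinite-attribute model: if all examples have at most `N` true variables
and description length at most `L`, then the number of mistakes is polynomial in the size and
`N`, and the time per trial is polynomial in the size and `L`. -/
def ConceptClass.IALearnable (C : ConceptClass) : Prop :=
  ∃ A : Learner (List Var), A.Feasible ∧ ∃ k : ℕ,
    ∀ (n : ℕ) (c : (Fin n → Bool) → Bool), C.mem n c →
    ∀ v : Fin n → Var, Function.Injective v →
    ∀ (xs : List (List Var)) (N L : ℕ),
      (∀ x ∈ xs, x.Nodup ∧ x.length ≤ N ∧ (enc x).size ≤ L) →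
      A.mistakes A.init (infRun c v xs) ≤ (N + C.size n c + 2) ^ k ∧
      (A.final A.init (infRun c v xs)).size ≤ (L + C.size n c + 2) ^ k

end Pool.Agent.Work.MP_8ec85b_lc
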