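import Pool.Agent.Work.MP_8ec85b_lc.Transfer

/-!
The infinite-attribute learner for the paired class of a class learned by `L`.
State: first positive example `U`, positive examples `P` on which a constraint caused a mistake,
negative examples `N` predicted positive, state of `L`, number of mistakes of `L` in the current
period, number of the period.
-/

namespace Pool.Agent.Work.MP_8ec85b_lc

abbrev St : Type := List Var × (List (List Var) × (List (List Var) × (D × (ℕ × ℕ))))

def badPair (P N : List (List Var)) (x : List Var) (u w : Var) : Bool :=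
  (decide (u ∈ x) == decide (w ∈ x)) &&
    (P.all (fun p => !(decide (u ∈ p) == decide (w ∈ p))) &&
      N.any (fun m => decide (u ∈ m) == decide (w ∈ m)))

/-- the example `x` violates an active constraint -/
def viol (U : List Var) (P N : List (List Var)) (x : List Var) : Bool :=
  U.any (fun u => !(decide (u ∈ x)) && P.all (fun p => decide (u ∈ p))) ||
  (x.any (fun f => P.all (fun p => !(decide (f ∈ p))) && N.any (fun m => decide (f ∈ m))) ||
  U.any (fun u => x.any (fun w => badPair P N x u w) ||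
    P.any (fun p => p.any (fun w => badPair P N x u w))))

def bvec (U x : List Var) : List Bool :=
  U.map (fun u => decide (u ∈ x)) ++ U.map (fun u => !(decide (u ∈ x)))

def spred (L : Learner (List Bool)) (s : St) (x : List Var) : Bool :=
  if s.2.1.isEmpty = true then false
  else if viol s.1 s.2.1 s.2.2.1 x = true then false
  else L.pred s.2.2.2.1 (bvec s.1 x)

def feed (L : Learner (List Bool)) (s : St) (x : List Var) (y : Bool) : St :=
  if decide ((enc (L.upd s.2.2.2.1 (bvec s.1 x) y, s.2.2.2.2.1 + 1)).size ≤ s.2.2.2.2.2) = true then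
    (s.1, (s.2.1, ((if y = true then s.2.2.1 else x :: s.2.2.1),
      (L.upd s.2.2.2.1 (bvec s.1 x) y, (s.2.2.2.2.1 + 1, s.2.2.2.2.2)))))
  else
    (s.1, (s.2.1, ((if y = true then s.2.2.1 else x :: s.2.2.1),
      (L.init, (0, s.2.2.2.2.2 + 1)))))

def supd (L : Learner (List Bool)) (s : St) (x : List Var) (y : Bool) : St :=
  if (spred L s x == y) = true then s
  else if s.2.1.isEmpty = true then (x, ([x], ([], (L.init, (0, 0)))))
  else if viol s.1 s.2.1 s.2.2.1 x = true then (s.1, (x :: s.2.1, s.2.2))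
  else feed L s x y

def sinit (L : Learner (List Bool)) : St := ([], ([], ([], (L.init, (0, 0)))))

section
variable {α : Type} [Enc α]

theorem Poly.badPair {P N : α → List (List Var)} {x : α → List Var} {u w : α → Var}
    (hP : Poly P) (hN : Poly N) (hx : Poly x) (hu : Poly u) (hw : Poly w) :
    Poly (fun a => badPair (P a) (N a) (x a) (u a) (w a)) := by
  unfold MP_8ec85b_lc.badPair
  refine Poly.and (Poly.beqBool (Poly.mem hu hx) (Poly.mem hw hx)) (Poly.and ?_ ?_)
  · refine Poly.all hP (Poly.not (Poly.beqBool (Poly.mem ?_ (Poly.fst Poly.id'))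
      (Poly.mem ?_ (Poly.fst Poly.id'))))
    · exact Poly.comp hu (Poly.snd Poly.id')
    · exact Poly.comp hw (Poly.snd Poly.id')
  · refine Poly.any hN (Poly.beqBool (Poly.mem ?_ (Poly.fst Poly.id'))
      (Poly.mem ?_ (Poly.fst Poly.id')))
    · exact Poly.comp hu (Poly.snd Poly.id')
    · exact Poly.comp hw (Poly.snd Poly.id')

theorem Poly.viol {U : α → List Var} {P N : α → List (List Var)} {x : α → List Var}
    (hU : Poly U) (hP : Poly P) (hN : Poly N) (hx : Poly x) :
    Poly (fun a => viol (U a) (P a) (N a) (x a)) := by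
  unfold MP_8ec85b_lc.viol
  refine Poly.or ?_ (Poly.or ?_ ?_)
  · refine Poly.any hU (Poly.and (Poly.not (Poly.mem (Poly.fst Poly.id')
      (Poly.comp hx (Poly.snd Poly.id')))) ?_)
    refine Poly.all (l := fun q : Var × α => P q.2) (p := fun q p => decide (q.1 ∈ p))
      (Poly.comp hP (Poly.snd Poly.id')) ?_
    exact Poly.mem (Poly.fst (Poly.snd Poly.id')) (Poly.fst Poly.id')
  · refine Poly.any hx (Poly.and ?_ ?_)
    · refine Poly.all (l := fun q : Var × α => P q.2) (p := fun q p => !(decide (q.1 ∈ p)))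
        (Poly.comp hP (Poly.snd Poly.id')) ?_
      exact Poly.not (Poly.mem (Poly.fst (Poly.snd Poly.id')) (Poly.fst Poly.id'))
    · refine Poly.any (l := fun q : Var × α => N q.2) (p := fun q p => (decide (q.1 ∈ p)))
        (Poly.comp hN (Poly.snd Poly.id')) ?_
      exact (Poly.mem (Poly.fst (Poly.snd Poly.id')) (Poly.fst Poly.id'))
  · refine Poly.any hU (Poly.or ?_ ?_)
    · refine Poly.any (l := fun q : Var × α => x q.2)
        (p := fun q w => MP_8ec85b_lc.badPair (P q.2) (N q.2) (x q.2) q.1 w)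
        (Poly.comp hx (Poly.snd Poly.id')) ?_
      exact Poly.badPair (Poly.comp hP (Poly.snd (Poly.snd Poly.id')))
        (Poly.comp hN (Poly.snd (Poly.snd Poly.id'))) (Poly.comp hx (Poly.snd (Poly.snd Poly.id')))
        (Poly.fst (Poly.snd Poly.id')) (Poly.fst Poly.id')
    · refine Poly.any (l := fun q : Var × α => P q.2)
        (p := fun q p => p.any (fun w => MP_8ec85b_lc.badPair (P q.2) (N q.2) (x q.2) q.1 w))
        (Poly.comp hP (Poly.snd Poly.id')) ?_
      refine Poly.any (l := fun r : List Var × (Var × α) => r.1)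
        (p := fun r w => MP_8ec85b_lc.badPair (P r.2.2) (N r.2.2) (x r.2.2) r.2.1 w)
        (Poly.fst Poly.id') ?_
      exact Poly.badPair (Poly.comp hP (Poly.snd (Poly.snd (Poly.snd Poly.id'))))
        (Poly.comp hN (Poly.snd (Poly.snd (Poly.snd Poly.id'))))
        (Poly.comp hx (Poly.snd (Poly.snd (Poly.snd Poly.id'))))
        (Poly.fst (Poly.snd (Poly.snd Poly.id'))) (Poly.fst Poly.id')

theorem Poly.bvec {U x : α → List Var} (hU : Poly U) (hx : Poly x) :
    Poly (fun a => bvec (U a) (x a)) := by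
  unfold MP_8ec85b_lc.bvec
  refine Poly.append (Poly.map hU ?_) (Poly.map hU (Poly.not ?_))
  · exact Poly.mem (Poly.fst Poly.id') (Poly.comp hx (Poly.snd Poly.id'))
  · exact Poly.mem (Poly.fst Poly.id') (Poly.comp hx (Poly.snd Poly.id'))

theorem Poly.spred {L : Learner (List Bool)} (hL : L.Feasible) {s : α → St} {x : α → List Var}
    (hs : Poly s) (hx : Poly x) : Poly (fun a => spred L (s a) (x a)) := by
  unfold MP_8ec85b_lc.spred
  refine Poly.ite (Poly.isEmpty (Poly.fst (Poly.snd hs))) (Poly.const false)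
    (Poly.ite (Poly.viol (Poly.fst hs) (Poly.fst (Poly.snd hs)) (Poly.fst (Poly.snd (Poly.snd hs))) hx)
      (Poly.const false) ?_)
  exact Poly.comp (f := fun q : D × List Bool => L.pred q.1 q.2) hL.1
    (Poly.pair (Poly.fst (Poly.snd (Poly.snd (Poly.snd hs)))) (Poly.bvec (Poly.fst hs) hx))

theorem Poly.feed {L : Learner (List Bool)} (hL : L.Feasible) {s : α → St} {x : α → List Var}
    {y : α → Bool} (hs : Poly s) (hx : Poly x) (hy : Poly y) :
    Poly (fun a => feed L (s a) (x a) (y a)) := by
  unfold MP_8ec85b_lc.feed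
  have h1 : Poly (fun a => L.upd (s a).2.2.2.1 (MP_8ec85b_lc.bvec (s a).1 (x a)) (y a)) :=
    Poly.comp (f := fun q : D × (List Bool × Bool) => L.upd q.1 q.2.1 q.2.2) hL.2
      (Poly.pair (Poly.fst (Poly.snd (Poly.snd (Poly.snd hs))))
        (Poly.pair (Poly.bvec (Poly.fst hs) hx) hy))
  have h2 : Poly (fun a => (s a).2.2.2.2.1) := Poly.fst (Poly.snd (Poly.snd (Poly.snd (Poly.snd hs))))
  have h3 : Poly (fun a => (s a).2.2.2.2.2) := Poly.snd (Poly.snd (Poly.snd (Poly.snd (Poly.snd hs))))
  have h4 : Poly (fun a => if y a = true then (s a).2.2.1 else x a :: (s a).2.2.1) :=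
    Poly.ite hy (Poly.fst (Poly.snd (Poly.snd hs))) (Poly.lcons hx (Poly.fst (Poly.snd (Poly.snd hs))))
  have h5 : Poly (fun a => enc (L.upd (s a).2.2.2.1 (MP_8ec85b_lc.bvec (s a).1 (x a)) (y a),
      (s a).2.2.2.2.1 + 1)) := by
    obtain ⟨F, hF, hF'⟩ := Poly.pair h1 (Poly.succ h2)
    exact ⟨F, hF, hF'⟩
  exact Poly.ite (Poly.sizeLe h5 h3)
    (Poly.pair (Poly.fst hs) (Poly.pair (Poly.fst (Poly.snd hs)) (Poly.pair h4
      (Poly.pair h1 (Poly.pair (Poly.succ h2) h3)))))
    (Poly.pair (Poly.fst hs) (Poly.pair (Poly.fst (Poly.snd hs)) (Poly.pair h4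
      (Poly.pair (Poly.const _) (Poly.pair (Poly.const _) (Poly.succ h3))))))

theorem Poly.supd {L : Learner (List Bool)} (hL : L.Feasible) {s : α → St} {x : α → List Var}
    {y : α → Bool} (hs : Poly s) (hx : Poly x) (hy : Poly y) :
    Poly (fun a => supd L (s a) (x a) (y a)) := by
  unfold MP_8ec85b_lc.supd
  refine Poly.ite (Poly.beqBool (Poly.spred hL hs hx) hy) hs
    (Poly.ite (Poly.isEmpty (Poly.fst (Poly.snd hs))) ?_
    (Poly.ite (Poly.viol (Poly.fst hs) (Poly.fst (Poly.snd hs)) (Poly.fst (Poly.snd (Poly.snd hs))) hx)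
      ?_ (Poly.feed hL hs hx hy)))
  · exact Poly.pair hx (Poly.pair (Poly.lcons hx (Poly.const [])) (Poly.const _))
  · exact Poly.pair (Poly.fst hs) (Poly.pair (Poly.lcons hx (Poly.fst (Poly.snd hs)))
      (Poly.snd (Poly.snd hs)))

end

theorem exists_ia_learner (L : Learner (List Bool)) (hL : L.Feasible) :
    ∃ A : Learner (List Var), A.Feasible ∧ ∀ es,
      A.final A.init es = enc (tfinal (supd L) (sinit L) es) ∧
      A.mistakes A.init es = tmistakes (spred L) (supd L) (sinit L) es := by
  apply exists_learner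
  · exact Poly.spred hL (Poly.fst Poly.id') (Poly.snd Poly.id')
  · exact Poly.supd hL (Poly.fst Poly.id') (Poly.fst (Poly.snd Poly.id')) (Poly.snd (Poly.snd Poly.id'))

end Pool.Agent.Work.MP_8ec85b_lc
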