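import Pool.Agent.Work.MP_8ec85b_lc.Defs

/-!
A small library of polynomial-time functions on encoded data.
-/

namespace Pool.Agent.Work.MP_8ec85b_lc

namespace D

theorem size_pos (x : D) : 1 ≤ x.size := by
  cases x <;> simp [size]

theorem size_head_le (x : D) : x.head.size ≤ x.size := by
  cases x <;> simp [size, head]; omega

theorem size_tail_le (x : D) : x.tail.size ≤ x.size := by
  cases x <;> simp [size, tail]; omega

theorem size_clip_le (B : ℕ) (x : D) : (clip B x).size ≤ max B 1 := by
  unfold clip
  split_ifs with h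
  · exact le_trans h (le_max_left _ _)
  · simp [size]

theorem clip_of_le {B : ℕ} {x : D} (h : x.size ≤ B) : clip B x = x := by
  simp [clip, h]

end D

theorem enc_D (x : D) : enc x = x := rfl
theorem enc_true : enc true = D.cons D.nil D.nil := rfl
theorem enc_false : enc false = D.nil := rfl
theorem enc_pair {α β : Type} [Enc α] [Enc β] (a : α) (b : β) :
    enc (a, b) = D.cons (enc a) (enc b) := rfl
theorem enc_lnil {α : Type} [Enc α] : enc ([] : List α) = D.nil := rfl
theorem enc_lcons {α : Type} [Enc α] (a : α) (l : List α) :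
    enc (a :: l) = D.cons (enc a) (enc l) := rfl

theorem bool_enc_eq_nil (b : Bool) : enc b = D.nil ↔ b = false := by
  cases b <;> simp [enc_true, enc_false]

/-- polynomial bound bookkeeping -/
theorem pow_le_of_le {s k K : ℕ} (h : k ≤ K) : (s + 2) ^ k ≤ (s + 2) ^ K :=
  Nat.pow_le_pow_right (by omega) h

theorem PT.bound {f : D → D} (hf : PT f) : ∃ k, ∀ x, (f x).size ≤ (x.size + 2) ^ k := by
  induction hf with
  | id => exact ⟨1, fun x => by simp⟩
  | nil => exact ⟨0, fun x => by simp [D.size]⟩
  | head => exact ⟨1, fun x => by have := D.size_head_le x; simp; omega⟩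
  | tail => exact ⟨1, fun x => by have := D.size_tail_le x; simp; omega⟩
  | @cons f g _ _ hf hg =>
    obtain ⟨a, ha⟩ := hf
    obtain ⟨b, hb⟩ := hg
    refine ⟨max a b + 1, fun x => ?_⟩
    have h1 := le_trans (ha x) (pow_le_of_le (s := x.size) (le_max_left a b))
    have h2 := le_trans (hb x) (pow_le_of_le (s := x.size) (le_max_right a b))
    have h3 : 1 ≤ (x.size + 2) ^ max a b := Nat.one_le_pow _ _ (by omega)
    have h4 := D.size_pos x
    have h5 : (x.size + 2) ^ (max a b + 1) = (x.size + 2) ^ max a b * (x.size + 2) := pow_succ _ _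
    have h6 : (x.size + 2) ^ max a b * 3 ≤ (x.size + 2) ^ max a b * (x.size + 2) :=
      Nat.mul_le_mul_left _ (by omega)
    simp only [D.size]
    omega
  | @comp f g _ _ hf hg =>
    obtain ⟨a, ha⟩ := hf
    obtain ⟨b, hb⟩ := hg
    refine ⟨(b + 1) * a, fun x => ?_⟩
    have h3 : 1 ≤ (x.size + 2) ^ b := Nat.one_le_pow _ _ (by omega)
    have h4 := D.size_pos x
    have h5 : (x.size + 2) ^ (b + 1) = (x.size + 2) ^ b * (x.size + 2) := pow_succ _ _
    have h6 : (x.size + 2) ^ b * 3 ≤ (x.size + 2) ^ b * (x.size + 2) :=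
      Nat.mul_le_mul_left _ (by omega)
    have h7 := hb x
    have h8 : (g x).size + 2 ≤ (x.size + 2) ^ (b + 1) := by omega
    calc (f (g x)).size ≤ ((g x).size + 2) ^ a := ha _
      _ ≤ ((x.size + 2) ^ (b + 1)) ^ a := Nat.pow_le_pow_left h8 a
      _ = (x.size + 2) ^ ((b + 1) * a) := by rw [← pow_mul]
  | eq =>
    refine ⟨1, fun x => ?_⟩
    have := D.size_pos x
    dsimp only
    split_ifs <;> simp [D.size] <;> omega
  | @ite c f g _ _ _ _ hf hg =>
    obtain ⟨a, ha⟩ := hf
    obtain ⟨b, hb⟩ := hg
    refine ⟨max a b, fun x => ?_⟩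
    have h1 := le_trans (ha x) (pow_le_of_le (s := x.size) (le_max_left a b))
    have h2 := le_trans (hb x) (pow_le_of_le (s := x.size) (le_max_right a b))
    dsimp only
    split_ifs <;> assumption
  | @brec f g l k _ _ _ _ _ _ =>
    refine ⟨k, fun x => ?_⟩
    have h1 : 1 ≤ (x.size + 2) ^ k := Nat.one_le_pow _ _ (by omega)
    have : ∀ t, (D.brec ((x.size + 2) ^ k) f (g x) x t).size ≤ max ((x.size + 2) ^ k) 1 := by
      intro t
      cases t <;> exact D.size_clip_le _ _
    have := this (l x)
    dsimp only
    omega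

theorem Poly.bound {α β : Type} [Enc α] [Enc β] {f : α → β} (hf : Poly f) :
    ∃ k, ∀ a, (enc (f a)).size ≤ ((enc a).size + 2) ^ k := by
  obtain ⟨F, hF, h⟩ := hf
  obtain ⟨k, hk⟩ := hF.bound
  exact ⟨k, fun a => by rw [← h]; exact hk _⟩

section closure

variable {α β γ δ : Type} [Enc α] [Enc β] [Enc γ] [Enc δ]

theorem Poly.id' : Poly (fun a : α => a) := ⟨_, PT.id, fun _ => rfl⟩

theorem PT.const (d : D) : PT (fun _ => d) := by
  induction d with
  | nil => exact PT.nil
  | cons a b ha hb => exact PT.cons ha hb

theorem Poly.const (b : β) : Poly (fun _ : α => b) := ⟨_, PT.const (enc b), fun _ => rfl⟩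

theorem Poly.comp {f : β → γ} {g : α → β} (hf : Poly f) (hg : Poly g) :
    Poly (fun a => f (g a)) := by
  obtain ⟨F, hF, h⟩ := hf
  obtain ⟨G, hG, h'⟩ := hg
  exact ⟨_, PT.comp hF hG, fun a => by simp [h, h']⟩

theorem Poly.pair {f : α → β} {g : α → γ} (hf : Poly f) (hg : Poly g) :
    Poly (fun a => (f a, g a)) := by
  obtain ⟨F, hF, h⟩ := hf
  obtain ⟨G, hG, h'⟩ := hg
  exact ⟨_, PT.cons hF hG, fun a => by simp [h, h', enc_pair]⟩

theorem Poly.fst {f : α → β × γ} (hf : Poly f) : Poly (fun a => (f a).1) := by
  obtain ⟨F, hF, h⟩ := hf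
  exact ⟨_, PT.comp PT.head hF, fun a => by simp only [h]; rfl⟩

theorem Poly.snd {f : α → β × γ} (hf : Poly f) : Poly (fun a => (f a).2) := by
  obtain ⟨F, hF, h⟩ := hf
  exact ⟨_, PT.comp PT.tail hF, fun a => by simp only [h]; rfl⟩

theorem Poly.ite {c : α → Bool} {f g : α → β} (hc : Poly c) (hf : Poly f) (hg : Poly g) :
    Poly (fun a => if c a = true then f a else g a) := by
  obtain ⟨C, hC, h''⟩ := hc
  obtain ⟨F, hF, h⟩ := hf
  obtain ⟨G, hG, h'⟩ := hg
  refine ⟨_, PT.ite hC hF hG, fun a => ?_⟩
  simp only [h, h', h'', bool_enc_eq_nil]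
  cases c a <;> simp

theorem Poly.not {c : α → Bool} (hc : Poly c) : Poly (fun a => !(c a)) := by
  have := Poly.ite hc (Poly.const (α := α) false) (Poly.const true)
  refine cast (congrArg _ ?_) this
  funext a; cases c a <;> rfl

theorem Poly.and {c d : α → Bool} (hc : Poly c) (hd : Poly d) : Poly (fun a => c a && d a) := by
  have := Poly.ite hc hd (Poly.const (α := α) false)
  refine cast (congrArg _ ?_) this
  funext a; cases c a <;> simp

theorem Poly.or {c d : α → Bool} (hc : Poly c) (hd : Poly d) : Poly (fun a => c a || d a) := by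
  have := Poly.ite hc (Poly.const (α := α) true) hd
  refine cast (congrArg _ ?_) this
  funext a; cases c a <;> simp

open Classical in
theorem Poly.beqEnc {f g : α → β} (hf : Poly f) (hg : Poly g) :
    Poly (fun a => decide (enc (f a) = enc (g a))) := by
  obtain ⟨F, hF, h⟩ := hf
  obtain ⟨G, hG, h'⟩ := hg
  refine ⟨_, PT.comp PT.eq (PT.cons hF hG), fun a => ?_⟩
  simp only [h, h', D.head, D.tail]
  by_cases hh : enc (f a) = enc (g a)
  · simp [hh, enc_true]
  · simp [hh, enc_false]

theorem Poly.lcons {f : α → β} {g : α → List β} (hf : Poly f) (hg : Poly g) :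
    Poly (fun a => f a :: g a) := by
  obtain ⟨F, hF, h⟩ := hf
  obtain ⟨G, hG, h'⟩ := hg
  exact ⟨_, PT.cons hF hG, fun a => by simp [h, h', enc_lcons]⟩

theorem Poly.isEmpty {f : α → List β} (hf : Poly f) : Poly (fun a => (f a).isEmpty) := by
  obtain ⟨F, hF, h⟩ := hf
  refine ⟨_, PT.ite hF PT.nil (PT.const (D.cons D.nil D.nil)), fun a => ?_⟩
  dsimp only
  rw [h a]
  cases f a with
  | nil => simp [enc_lnil, enc_true]
  | cons b l => simp [enc_lcons, enc_false]

/-- Bounded list recursion. -/
theorem Poly.foldr {l : α → List β} {g : α → γ} {f : β → γ → α → γ}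
    (hf : Poly (fun q : β × (γ × α) => f q.1 q.2.1 q.2.2)) (hg : Poly g) (hl : Poly l)
    (hb : ∃ k, ∀ a, ∀ t, t <:+ l a →
      (enc (t.foldr (fun b c => f b c a) (g a))).size ≤ ((enc a).size + 2) ^ k) :
    Poly (fun a => (l a).foldr (fun b c => f b c a) (g a)) := by
  obtain ⟨F, hF, h⟩ := hf
  obtain ⟨G, hG, h'⟩ := hg
  obtain ⟨L, hL, h''⟩ := hl
  obtain ⟨k, hk⟩ := hb
  refine ⟨_, PT.brec k hF hG hL, fun a => ?_⟩
  simp only [h', h'']
  have key : ∀ t, t <:+ l a → D.brec (((enc a).size + 2) ^ k) F (enc (g a)) (enc a) (enc t) =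
      enc (t.foldr (fun b c => f b c a) (g a)) := by
    intro t
    induction t with
    | nil =>
      intro ht
      have := hk a [] ht
      simp only [enc_lnil, D.brec, List.foldr_nil] at this ⊢
      exact D.clip_of_le this
    | cons b t ih =>
      intro ht
      have h1 := hk a (b :: t) ht
      have h2 : t <:+ l a := (List.suffix_cons b t).trans ht
      simp only [enc_lcons, D.brec, List.foldr_cons] at h1 ⊢
      rw [ih h2]
      have h3 := h (b, (t.foldr (fun b c => f b c a) (g a), a))
      simp only [enc_pair] at h3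
      rw [h3]
      exact D.clip_of_le h1
  exact key _ List.suffix_rfl

theorem enc_bool_size_le (b : Bool) : (enc b).size ≤ 3 := by
  cases b <;> simp [enc_true, enc_false, D.size]

theorem enc_size_pos (a : α) : 1 ≤ (enc a).size := D.size_pos _

theorem Poly.any {l : α → List β} {p : α → β → Bool} (hl : Poly l)
    (hp : Poly (fun q : β × α => p q.2 q.1)) : Poly (fun a => (l a).any (p a)) := by
  have := Poly.foldr (l := l) (g := fun _ : α => false) (f := fun b c a => p a b || c)
    (Poly.or (Poly.comp hp (Poly.pair (Poly.fst Poly.id') (Poly.snd (Poly.snd Poly.id'))))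
      (Poly.fst (Poly.snd Poly.id')))
    (Poly.const false) hl
    ⟨1, fun a t _ => by
      have h1 := enc_bool_size_le (t.foldr (fun b c => p a b || c) false)
      have h2 := enc_size_pos a
      simp only [pow_one]; omega⟩
  refine cast (congrArg _ ?_) this
  funext a
  induction l a with
  | nil => rfl
  | cons b t ih => simp [ih]

theorem Poly.all {l : α → List β} {p : α → β → Bool} (hl : Poly l)
    (hp : Poly (fun q : β × α => p q.2 q.1)) : Poly (fun a => (l a).all (p a)) := by
  have := Poly.not (Poly.any (p := fun a b => !(p a b)) hl (Poly.not hp))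
  refine cast (congrArg _ ?_) this
  funext a
  induction l a with
  | nil => rfl
  | cons b t ih =>
    simp only [List.any_cons, List.all_cons, Bool.not_or, Bool.not_not, ih]

theorem size_enc_mem_le {l : List β} {b : β} (h : b ∈ l) : (enc b).size + 1 ≤ (enc l).size := by
  induction l with
  | nil => simp at h
  | cons c t ih =>
    simp only [enc_lcons, D.size]
    rcases List.mem_cons.1 h with rfl | h
    · have := enc_size_pos t; omega
    · have := ih h; omega

theorem size_enc_suffix_le {l t : List β} (h : t <:+ l) : (enc t).size ≤ (enc l).size := by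
  induction l with
  | nil => rw [List.suffix_nil.1 h]
  | cons c l ih =>
    simp only [enc_lcons, D.size]
    rcases List.suffix_cons_iff.1 h with rfl | h
    · simp only [enc_lcons, D.size]; exact le_refl _
    · have := ih h; omega

theorem length_le_size_enc (l : List β) : l.length + 1 ≤ (enc l).size := by
  induction l with
  | nil => simp [enc_lnil, D.size]
  | cons c l ih =>
    simp only [enc_lcons, D.size, List.length_cons]; omega

theorem size_enc_list_le {l : List β} {M : ℕ} (h : ∀ b ∈ l, (enc b).size ≤ M) :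
    (enc l).size ≤ l.length * (M + 1) + 1 := by
  induction l with
  | nil => simp [enc_lnil, D.size]
  | cons c l ih =>
    simp only [enc_lcons, D.size, List.length_cons]
    have h1 := h c (by simp)
    have h2 := ih (fun b hb => h b (by simp [hb]))
    rw [Nat.succ_mul] 
    omega

theorem size_enc_append (l t : List β) : (enc (l ++ t)).size + 1 = (enc l).size + (enc t).size := by
  induction l with
  | nil => simp [enc_lnil, D.size]; omega
  | cons c l ih => simp only [enc_lcons, D.size, List.cons_append]; omega

theorem Poly.map {l : α → List β} {f : α → β → γ} (hl : Poly l)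
    (hf : Poly (fun q : β × α => f q.2 q.1)) : Poly (fun a => (l a).map (f a)) := by
  obtain ⟨k, hk⟩ := Poly.bound hf
  obtain ⟨m, hm⟩ := Poly.bound hl
  have := Poly.foldr (l := l) (g := fun _ : α => ([] : List γ)) (f := fun b c a => f a b :: c)
    (Poly.lcons (Poly.comp hf (Poly.pair (Poly.fst Poly.id') (Poly.snd (Poly.snd Poly.id'))))
      (Poly.fst (Poly.snd Poly.id')))
    (Poly.const []) hl
    ⟨m + ((m + 1) * k + 1) + 1, fun a t ht => by
      have e : t.foldr (fun b c => f a b :: c) [] = t.map (f a) := by
        clear ht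
        induction t with
        | nil => rfl
        | cons b t ih => simp [ih]
      rw [e]
      have h0 := enc_size_pos a
      set s := (enc a).size with hs
      have h1 : ∀ c ∈ t.map (f a), (enc c).size ≤ (s + 2) ^ ((m + 1) * k) := by
        intro c hc
        obtain ⟨b, hb, rfl⟩ := List.mem_map.1 hc
        have h2 := hk (b, a)
        simp only [enc_pair, D.size] at h2
        have h3 := size_enc_mem_le (ht.subset hb)
        have h4 := hm a
        rw [← hs] at h4 h2
        have h9 := enc_size_pos b
        have h5 : (enc b).size + s + 1 + 2 ≤ (s + 2) ^ (m + 1) := by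
          have : (s + 2) ^ (m + 1) = (s + 2) ^ m * (s + 2) := pow_succ _ _
          have h6 : 1 ≤ (s + 2) ^ m := Nat.one_le_pow _ _ (by omega)
          have h7 : (s + 2) ^ m * (s + 2) = (s + 2) ^ m * 2 + (s + 2) ^ m * s := by ring
          have h8 : 2 * s ≤ (s + 2) ^ m * s := Nat.mul_le_mul_right _ (by omega)
          omega
        calc _ ≤ _ := h2
          _ ≤ ((s + 2) ^ (m + 1)) ^ k := Nat.pow_le_pow_left h5 k
          _ = _ := by rw [← pow_mul]
      have h2 := size_enc_list_le h1
      have h3 : (t.map (f a)).length + 1 ≤ (s + 2) ^ m := by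
        have := length_le_size_enc t
        have := size_enc_suffix_le ht
        have := hm a
        rw [← hs] at this
        simp only [List.length_map]; omega
      have h4 : 1 ≤ (s + 2) ^ ((m + 1) * k) := Nat.one_le_pow _ _ (by omega)
      calc (enc (t.map (f a))).size ≤ (t.map (f a)).length * ((s + 2) ^ ((m + 1) * k) + 1) + 1 := h2
        _ ≤ ((t.map (f a)).length + 1) * ((s + 2) ^ ((m + 1) * k) + 1) := by nlinarith
        _ ≤ (s + 2) ^ m * ((s + 2) ^ ((m + 1) * k) + 1) := Nat.mul_le_mul_right _ h3
        _ ≤ (s + 2) ^ m * ((s + 2) ^ ((m + 1) * k + 1)) := by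
            apply Nat.mul_le_mul_left
            rw [pow_succ]
            nlinarith
        _ = (s + 2) ^ (m + ((m + 1) * k + 1)) := by rw [← pow_add]
        _ ≤ _ := pow_le_of_le (by omega)⟩
  refine cast (congrArg _ ?_) this
  funext a
  induction l a with
  | nil => rfl
  | cons b t ih => simp [ih]

theorem Poly.append {l t : α → List β} (hl : Poly l) (ht : Poly t) :
    Poly (fun a => l a ++ t a) := by
  obtain ⟨k, hk⟩ := Poly.bound hl
  obtain ⟨m, hm⟩ := Poly.bound ht
  have := Poly.foldr (l := l) (g := t) (f := fun b c _ => b :: c)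
    (Poly.lcons (Poly.fst Poly.id') (Poly.fst (Poly.snd Poly.id'))) ht hl
    ⟨max k m + 1, fun a u hu => by
      have e : u.foldr (fun b c => b :: c) (t a) = u ++ t a := by
        clear hu
        induction u with
        | nil => rfl
        | cons b t ih => simp [ih]
      rw [e]
      have h1 := size_enc_append u (t a)
      have h2 := size_enc_suffix_le hu
      have h3 := le_trans (hk a) (pow_le_of_le (s := (enc a).size) (le_max_left k m))
      have h4 := le_trans (hm a) (pow_le_of_le (s := (enc a).size) (le_max_right k m))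
      have h5 : ((enc a).size + 2) ^ (max k m + 1) = ((enc a).size + 2) ^ max k m * ((enc a).size + 2) := pow_succ _ _
      have h6 : ((enc a).size + 2) ^ max k m * 2 ≤ ((enc a).size + 2) ^ max k m * ((enc a).size + 2) :=
        Nat.mul_le_mul_left _ (by omega)
      omega⟩
  refine cast (congrArg _ ?_) this
  funext a
  induction l a with
  | nil => rfl
  | cons b t ih => simp [ih]

end closure

/-- encodings of variable names are faithful -/
theorem enc_bool_inj {a b : Bool} (h : enc a = enc b) : a = b := by
  cases a <;> cases b <;> simp_all [enc_true, enc_false]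

theorem enc_var_inj : ∀ {a b : Var}, enc a = enc b → a = b
  | [], [], _ => rfl
  | [], b :: t, h => by simp [enc_lnil, enc_lcons] at h
  | b :: t, [], h => by simp [enc_lnil, enc_lcons] at h
  | a :: s, b :: t, h => by
    simp only [enc_lcons, D.cons.injEq] at h
    rw [enc_bool_inj h.1, enc_var_inj h.2]

theorem Poly.varEq {α : Type} [Enc α] {f g : α → Var} (hf : Poly f) (hg : Poly g) :
    Poly (fun a => decide (f a = g a)) := by
  refine cast (congrArg _ ?_) (Poly.beqEnc hf hg)
  funext a
  by_cases h : f a = g a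
  · simp [h]
  · have : enc (f a) ≠ enc (g a) := fun h' => h (enc_var_inj h')
    simp [h, this]

theorem Poly.mem {α : Type} [Enc α] {f : α → Var} {l : α → List Var} (hf : Poly f) (hl : Poly l) :
    Poly (fun a => decide (f a ∈ l a)) := by
  have := Poly.any (p := fun a b => decide (f a = b)) hl
    (Poly.varEq (Poly.comp hf (Poly.snd Poly.id')) (Poly.fst Poly.id'))
  refine cast (congrArg _ ?_) this
  funext a
  simp [List.any_eq]

theorem Poly.beqBool {α : Type} [Enc α] {f g : α → Bool} (hf : Poly f) (hg : Poly g) :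
    Poly (fun a => f a == g a) := by
  have := Poly.ite hf hg (Poly.not hg)
  refine cast (congrArg _ ?_) this
  funext a
  cases f a <;> cases g a <;> rfl

end Pool.Agent.Work.MP_8ec85b_lc
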