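import Pool.Agent.Work.MP_8ec85b_lc.Lib

/-!
Unary numbers, the size test, and learners with typed states.
-/

namespace Pool.Agent.Work.MP_8ec85b_lc

instance : Enc Unit := ⟨fun _ => D.nil⟩

/-- unary encoding of natural numbers -/
instance : Enc ℕ := ⟨fun n => enc (List.replicate n ())⟩

theorem enc_nat (n : ℕ) : enc n = enc (List.replicate n ()) := rfl

theorem size_enc_nat (n : ℕ) : (enc n).size = 2 * n + 1 := by
  rw [enc_nat]
  induction n with
  | zero => simp [enc_lnil, D.size]
  | succ n ih =>
    rw [List.replicate_succ, enc_lcons]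
    simp only [D.size]
    have : (enc ()).size = 1 := rfl
    omega

section
variable {α : Type} [Enc α]

theorem Poly.succ {f : α → ℕ} (hf : Poly f) : Poly (fun a => f a + 1) := by
  obtain ⟨F, hF, h⟩ := hf
  exact ⟨_, PT.cons PT.nil hF, fun a => by
    simp only [h, enc_nat, List.replicate_succ, enc_lcons]; rfl⟩

/-- one step of the traversal of a tree with a stack -/
def dfsStep : List D → List D
  | [] => []
  | D.nil :: r => r
  | D.cons a b :: r => a :: b :: r

theorem Poly.dfsStep {f : α → List D} (hf : Poly f) : Poly (fun a => dfsStep (f a)) := by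
  obtain ⟨F, hF, h⟩ := hf
  have hh : PT (fun x : D => x.head) := PT.head
  have ht : PT (fun x : D => x.tail) := PT.tail
  refine ⟨_, PT.comp (PT.ite PT.id (PT.ite PT.head (PT.cons (PT.comp PT.head PT.head)
    (PT.cons (PT.comp PT.tail PT.head) PT.tail)) PT.tail) PT.nil) hF, fun a => ?_⟩
  dsimp only
  rw [h a]
  rcases f a with _ | ⟨_ | ⟨b, c⟩, r⟩
  · simp [MP_8ec85b_lc.dfsStep, enc_lnil]
  · simp [MP_8ec85b_lc.dfsStep, enc_lcons, enc_D, D.head, D.tail]
  · simp [MP_8ec85b_lc.dfsStep, enc_lcons, enc_D, D.head, D.tail]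

def mu (l : List D) : ℕ := (l.map D.size).sum

theorem mu_dfsStep (l : List D) : mu (dfsStep l) = mu l - 1 := by
  rcases l with _ | ⟨_ | ⟨b, c⟩, r⟩
  · simp [dfsStep, mu]
  · simp [dfsStep, mu, D.size]
  · simp [dfsStep, mu, D.size]; omega

theorem length_le_mu (l : List D) : l.length ≤ mu l := by
  induction l with
  | nil => simp [mu]
  | cons a l ih =>
    have := a.size_pos
    simp only [mu, List.map_cons, List.sum_cons, List.length_cons] at ih ⊢
    omega

theorem mu_eq_zero (l : List D) : mu l = 0 ↔ l = [] := by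
  constructor
  · intro h
    have := length_le_mu l
    exact List.length_eq_zero_iff.1 (by omega)
  · rintro rfl; rfl

theorem size_enc_stack (l : List D) : (enc l).size ≤ 2 * mu l + 1 := by
  induction l with
  | nil => simp [mu, enc_lnil, D.size]
  | cons a l ih =>
    have := a.size_pos
    simp only [mu, List.map_cons, List.sum_cons, enc_lcons, D.size, enc_D] at ih ⊢
    omega

theorem mu_iter (d : D) (n : ℕ) :
    mu ((List.replicate n ()).foldr (fun _ s => dfsStep s) [d]) = d.size - n := by
  induction n with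
  | zero => simp [mu]
  | succ n ih =>
    rw [List.replicate_succ, List.foldr_cons, mu_dfsStep, ih]; omega

theorem Poly.sizeLe {f : α → D} {n : α → ℕ} (hf : Poly f) (hn : Poly n) :
    Poly (fun a => decide ((f a).size ≤ n a)) := by
  have hn' : Poly (fun a => List.replicate (n a) ()) := by
    obtain ⟨F, hF, h⟩ := hn
    exact ⟨F, hF, fun a => by rw [h]; rfl⟩
  obtain ⟨k, hk⟩ := Poly.bound hf
  have h1 := Poly.isEmpty (Poly.foldr (l := fun a => List.replicate (n a) ()) (g := fun a => [f a])
    (f := fun _ s _ => MP_8ec85b_lc.dfsStep s)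
    (Poly.dfsStep (Poly.fst (Poly.snd Poly.id'))) (Poly.lcons hf (Poly.const [])) hn'
    ⟨k + 1, fun a t ht => by
      obtain ⟨m, rfl⟩ : ∃ m, t = List.replicate m () :=
        ⟨t.length, List.eq_replicate_iff.2 ⟨rfl, fun _ _ => rfl⟩⟩
      have h2 := size_enc_stack ((List.replicate m ()).foldr (fun _ s => MP_8ec85b_lc.dfsStep s) [f a])
      rw [mu_iter] at h2
      have h3 := hk a
      rw [enc_D] at h3
      have h4 : ((enc a).size + 2) ^ (k + 1) = ((enc a).size + 2) ^ k * ((enc a).size + 2) := pow_succ _ _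
      have h5 := enc_size_pos a
      have h6 : ((enc a).size + 2) ^ k * 3 ≤ ((enc a).size + 2) ^ k * ((enc a).size + 2) :=
        Nat.mul_le_mul_left _ (by omega)
      have h7 : 1 ≤ ((enc a).size + 2) ^ k := Nat.one_le_pow _ _ (by omega)
      omega⟩)
  refine cast (congrArg _ ?_) h1
  funext a
  have h2 := mu_iter (f a) (n a)
  by_cases h : (f a).size ≤ n a
  · have h3 : (List.replicate (n a) ()).foldr (fun _ s => MP_8ec85b_lc.dfsStep s) [f a] = [] := by
      rw [← mu_eq_zero, h2]; omega
    simp [h, h3]
  · have h3 : (List.replicate (n a) ()).foldr (fun _ s => MP_8ec85b_lc.dfsStep s) [f a] ≠ [] := by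
      rw [Ne, ← mu_eq_zero, h2]; omega
    simp only [h, decide_false, List.isEmpty_eq_false_iff]
    exact h3

end

/-- state reached, for typed states -/
def tfinal {σ X : Type} (u : σ → X → Bool → σ) : σ → List (X × Bool) → σ
  | s, [] => s
  | s, e :: es => tfinal u (u s e.1 e.2) es

def tmistakes {σ X : Type} (p : σ → X → Bool) (u : σ → X → Bool → σ) : σ → List (X × Bool) → ℕ
  | _, [] => 0
  | s, e :: es => (if p s e.1 = e.2 then 0 else 1) + tmistakes p u (u s e.1 e.2) es

theorem exists_learner {σ X : Type} [Enc σ] [Enc X] (i : σ) (p : σ → X → Bool)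
    (u : σ → X → Bool → σ) (hp : Poly (fun q : σ × X => p q.1 q.2))
    (hu : Poly (fun q : σ × (X × Bool) => u q.1 q.2.1 q.2.2)) :
    ∃ A : Learner X, A.Feasible ∧ ∀ es,
      A.final A.init es = enc (tfinal u i es) ∧ A.mistakes A.init es = tmistakes p u i es := by
  classical
  obtain ⟨F, hF, hF'⟩ := hp
  obtain ⟨G, hG, hG'⟩ := hu
  let A : Learner X := ⟨enc i, fun d x => decide (F (D.cons d (enc x)) ≠ D.nil),
    fun d x y => G (D.cons d (D.cons (enc x) (enc y)))⟩
  have hpred : ∀ s x, A.pred (enc s) x = p s x := by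
    intro s x
    have := hF' (s, x)
    simp only [enc_pair] at this
    simp only [A, this, Ne, bool_enc_eq_nil]
    cases p s x <;> simp
  have hupd : ∀ s x y, A.upd (enc s) x y = enc (u s x y) := by
    intro s x y
    have := hG' (s, (x, y))
    simp only [enc_pair] at this
    exact this
  refine ⟨A, ⟨⟨_, PT.ite hF (PT.const (D.cons D.nil D.nil)) PT.nil, fun q => ?_⟩,
    ⟨G, hG, fun q => rfl⟩⟩, ?_⟩
  · by_cases h : F (D.cons q.1 (enc q.2)) = D.nil
    · have h' : F (enc q) = D.nil := h
      simp only [A, h, h', enc_false, ne_eq, not_true_eq_false, decide_false, if_true]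
    · have h' : ¬ F (enc q) = D.nil := h
      simp only [A, h, h', enc_true, ne_eq, not_false_eq_true, decide_true, if_false]
  · have key : ∀ es s, A.final (enc s) es = enc (tfinal u s es) ∧
        A.mistakes (enc s) es = tmistakes p u s es := by
      intro es
      induction es with
      | nil => intro s; exact ⟨rfl, rfl⟩
      | cons e es ih =>
        intro s
        simp only [Learner.final, Learner.mistakes, tfinal, tmistakes, hupd, hpred]
        exact ⟨(ih _).1, by rw [(ih _).2]⟩
    intro es
    exact key es i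

end Pool.Agent.Work.MP_8ec85b_lc
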