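import Pool.Agent.Work.MP_8ec85b_lc.Run

/-!
The paired class is learnable in the infinite-attribute model.
-/

namespace Pool.Agent.Work.MP_8ec85b_lc

open Finset

/-- bound on the number of mistakes -/
def Tb (kk B m : ℕ) : ℕ := 1 + kk + (B + m + 1) ^ 2 * (1 + kk + kk * kk)

theorem Tb_le (kk S m k : ℕ) (hm : m ≤ S) :
    Tb kk (3 * (kk + kk + S + 2) ^ k + 2) m ≤ (kk + S + 2) ^ (4 * k + 9) := by
  unfold Tb
  set τ := kk + S + 2 with hτ
  have h2 : 2 ≤ τ := by omega
  have h1 : (kk + kk + S + 2) ^ k ≤ τ ^ (2 * k) := by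
    rw [pow_mul]
    apply Nat.pow_le_pow_left
    nlinarith
  have h3 : 1 ≤ τ ^ (2 * k) := Nat.one_le_pow _ _ (by omega)
  have h4 : 3 * (kk + kk + S + 2) ^ k + 2 + m + 1 ≤ τ ^ (2 * k + 3) := by
    have h5 : τ ^ (2 * k + 3) = τ ^ (2 * k) * τ ^ 3 := pow_add _ _ _
    rw [h5]
    have h6 : τ + 6 ≤ τ ^ 3 := by nlinarith [sq_nonneg τ, Nat.mul_le_mul h2 h2]
    calc 3 * (kk + kk + S + 2) ^ k + 2 + m + 1 ≤ 3 * τ ^ (2 * k) + (3 + τ) := by omega
      _ ≤ 3 * τ ^ (2 * k) + (3 + τ) * τ ^ (2 * k) := by nlinarith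
      _ = τ ^ (2 * k) * (τ + 6) := by ring
      _ ≤ _ := Nat.mul_le_mul_left _ h6
  have h5 : (3 * (kk + kk + S + 2) ^ k + 2 + m + 1) ^ 2 ≤ τ ^ (4 * k + 6) := by
    calc _ ≤ (τ ^ (2 * k + 3)) ^ 2 := Nat.pow_le_pow_left h4 2
      _ = _ := by rw [← pow_mul]; ring_nf
  have h6 : 1 + kk + kk * kk ≤ τ ^ 2 := by nlinarith
  have h7 : 1 + kk ≤ τ := by omega
  have h8 : 1 ≤ τ ^ (4 * k + 7) := Nat.one_le_pow _ _ (by omega)
  calc 1 + kk + (3 * (kk + kk + S + 2) ^ k + 2 + m + 1) ^ 2 * (1 + kk + kk * kk)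
      ≤ τ + τ ^ (4 * k + 6) * τ ^ 2 := Nat.add_le_add h7 (Nat.mul_le_mul h5 h6)
    _ = τ + τ ^ (4 * k + 8) := by rw [← pow_add]
    _ ≤ τ ^ (4 * k + 8) + τ ^ (4 * k + 8) := by
        have : τ ≤ τ ^ (4 * k + 8) := by
          calc τ = 1 * τ := (one_mul _).symm
            _ ≤ τ ^ (4 * k + 7) * τ := Nat.mul_le_mul_right _ h8
            _ = τ ^ (4 * k + 8) := (pow_succ _ _).symm
        omega
    _ = 2 * τ ^ (4 * k + 8) := by ring
    _ ≤ τ * τ ^ (4 * k + 8) := Nat.mul_le_mul_right _ h2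
    _ = τ ^ (4 * k + 9) := by rw [← pow_succ']

theorem Inv.bounds {m : ℕ} {g : (Fin m → Bool) → Bool} {slot : Fin m → Bool → Bool ⊕ Var}
    {L : Learner (List Bool)} {Ω : Finset Var} {kk Lb B : ℕ}
    {U : List Var} {P N : List (List Var)} {st : D} {cnt j T : ℕ}
    (h : Inv g slot L Ω kk Lb B U P N st cnt j T) :
    T ≤ Tb kk B m ∧ P.length ≤ Tb kk B m ∧ N.length ≤ Tb kk B m ∧ cnt ≤ Tb kk B m ∧
      j ≤ Tb kk B m ∧ st.size ≤ Tb kk B m + L.init.size := by
  obtain ⟨F, hF1, hF2, hF3⟩ := h.hF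
  have hW : (Wit slot N).card ≤ m := by
    calc _ ≤ (univ : Finset (Fin m)).card := card_le_univ _
      _ = m := by simp
  have hj : j ≤ B + m := by have := h.hj; omega
  have hU : U.length ≤ kk := (h.hpos U h.hU).2.1
  have hcnt := h.hcnt
  have hF : F ≤ (B + m + 1) ^ 2 := by
    calc F ≤ j * (j + 1) + cnt := hF2
      _ ≤ (j + 1) ^ 2 := by nlinarith
      _ ≤ _ := Nat.pow_le_pow_left (by omega) 2
  have h1 : 1 + kk + U.length * kk ≤ 1 + kk + kk * kk := by
    have := Nat.mul_le_mul_right kk hU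
    omega
  have hT : T ≤ Tb kk B m := by
    unfold Tb
    have := Nat.mul_le_mul hF h1
    omega
  have h2 : (B + m + 1) ^ 2 ≤ Tb kk B m := by
    unfold Tb
    have : (B + m + 1) ^ 2 * 1 ≤ (B + m + 1) ^ 2 * (1 + kk + kk * kk) :=
      Nat.mul_le_mul_left _ (by omega)
    omega
  have h3 : B + m + 1 ≤ (B + m + 1) ^ 2 := by nlinarith
  refine ⟨hT, ?_, by omega, by omega, by omega, ?_⟩
  · have := h.hlen; omega
  · rcases h.hst with h4 | h4
    · omega
    · rw [h4]; omega

theorem ia_paired (G : ConceptClass) (hE : G.EmbeddingClosed) (hP : G.ProjectionClosed)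
    (h : G.MBLearnable) : (paired G).IALearnable := by
  classical
  obtain ⟨L, hL, k, hk⟩ := h
  obtain ⟨A, hA, hAr⟩ := exists_ia_learner L hL
  refine ⟨A, hA, (4 * k + 9) + 1 + (20 + L.init.size), fun n c hc v hv xs N Lb hxs => ?_⟩
  obtain ⟨m, g, ρ, hg, hρ, hs, hc'⟩ := paired_rep hc
  set S := (paired G).size n c with hS
  let slot : Fin m → Bool → Bool ⊕ Var := fun i b => Sum.map id v (ρ (i, b))
  have hslot : SlotInj slot := by
    intro i b i' b' a h1 h2
    simp only [slot] at h1 h2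
    rcases h3 : ρ (i, b) with w | k1
    · rw [h3] at h1; simp at h1
    · rcases h4 : ρ (i', b') with w | k2
      · rw [h4] at h2; simp at h2
      · rw [h3] at h1
        rw [h4] at h2
        simp only [Sum.map_inr, Sum.inr.injEq] at h1 h2
        have h5 : k1 = k2 := hv (h1.trans h2.symm)
        subst h5
        have := hρ _ _ _ h3 h4
        exact ⟨congrArg Prod.fst this, congrArg Prod.snd this⟩
  have htar : ∀ x : List Var, c (fun i => decide (v i ∈ x)) = target g slot x := by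
    intro x
    rw [hc']
    show pairFn g _ = pairFn g _
    congr 1
    funext i b
    simp only [zx, slot]
    rcases ρ (i, b) with w | k1 <;> rfl
  have hrun : infRun c v xs = xs.map (fun x => (x, target g slot x)) := by
    unfold infRun
    apply List.map_congr_left
    intro x _
    rw [htar]
  have hmS : m ≤ S := by omega
  have hclean : ∀ kk : ℕ, ∀ U : List Var, U.length ≤ kk → ∀ st cnt, Clean g slot L U st cnt →
      (enc (st, cnt)).size ≤ 3 * (kk + kk + S + 2) ^ k + 2 := by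
    intro kk U hU st cnt hcl
    obtain ⟨fl, h1, h2⟩ := hcl
    have h3 := subst_mem G hE hP g hg (sigma slot U) (sigma_inj hslot U)
    have h4 := hk _ (gU g slot U) h3.1 fl
    have h5 : G.size _ (gU g slot U) ≤ G.size m g := h3.2
    have h6 : (U.length + U.length + G.size _ (gU g slot U) + 2) ^ k ≤ (kk + kk + S + 2) ^ k :=
      Nat.pow_le_pow_left (by omega) _
    rw [size_enc_st, h1]
    omega
  have hinit : ∀ kk : ℕ, Good g slot L (xs.flatten.toFinset) kk Lb
      (3 * (kk + kk + S + 2) ^ k + 2) (sinit L) 0 := fun kk => Or.inl ⟨rfl, rfl⟩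
  have hΩ : ∀ x ∈ xs, ∀ a ∈ x, a ∈ xs.flatten.toFinset := by
    intro x hx a ha
    simp only [List.mem_toFinset, List.mem_flatten]
    exact ⟨x, hx, ha⟩
  have hlenL : ∀ x ∈ xs, x.length ≤ Lb := by
    intro x hx
    have h1 := length_le_size_enc x
    have h2 := (hxs x hx).2.2
    omega
  have g1 := good_run (hclean N) xs
    (fun x hx => ⟨(hxs x hx).2.1, (hxs x hx).2.2, hΩ x hx⟩) _ _ (hinit N)
  have g2 := good_run (hclean Lb) xs
    (fun x hx => ⟨hlenL x hx, (hxs x hx).2.2, hΩ x hx⟩) _ _ (hinit Lb)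
  rw [zero_add] at g1 g2
  rw [hrun, (hAr _).1, (hAr _).2]
  constructor
  · rcases g1 with ⟨_, h2⟩ | ⟨U, P, N', st, cnt, j, h2, h3⟩
    · rw [h2]; exact Nat.zero_le _
    · calc _ ≤ _ := h3.bounds.1
        _ ≤ _ := Tb_le N S m k hmS
        _ ≤ _ := pow_le_of_le (by omega)
  · set τ := Lb + S + 2 with hτ
    have hτ2 : 2 ≤ τ := by omega
    have hbig : ∀ X : ℕ, X ≤ τ ^ (4 * k + 9) * τ * (20 + L.init.size) →
        X ≤ τ ^ ((4 * k + 9) + 1 + (20 + L.init.size)) := by
      intro X hX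
      calc X ≤ _ := hX
        _ ≤ τ ^ (4 * k + 9) * τ * τ ^ (20 + L.init.size) := by
            apply Nat.mul_le_mul_left
            calc 20 + L.init.size ≤ 2 ^ (20 + L.init.size) := Nat.lt_two_pow_self.le
              _ ≤ _ := Nat.pow_le_pow_left hτ2 _
        _ = _ := by rw [← pow_succ, ← pow_add]
    apply hbig
    have h1τ : 1 ≤ τ ^ (4 * k + 9) := Nat.one_le_pow _ _ (by omega)
    rcases g2 with ⟨h2, _⟩ | ⟨U, P, N', st, cnt, j, h2, h3⟩
    · rw [h2]
      have : (enc (sinit L)).size = L.init.size + 10 := by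
        show D.size (D.cons D.nil (D.cons D.nil (D.cons D.nil (D.cons L.init (D.cons D.nil D.nil))))) = _
        simp only [D.size]; omega
      rw [this]
      have : 1 * (20 + L.init.size) ≤ τ ^ (4 * k + 9) * τ * (20 + L.init.size) :=
        Nat.mul_le_mul_right _ (by nlinarith)
      omega
    · rw [h2]
      have hb := h3.bounds
      have hT := Tb_le Lb S m k hmS
      rw [← hτ] at hT
      set X := τ ^ (4 * k + 9) with hX
      set TT := Tb Lb (3 * (Lb + Lb + S + 2) ^ k + 2) m with hTT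
      have e1 : (enc (U, (P, (N', (st, (cnt, j)))))).size =
          (enc U).size + (enc P).size + (enc N').size + st.size + (2 * cnt + 1) + (2 * j + 1) + 5 := by
        simp only [enc_pair, D.size, size_enc_nat, enc_D]
        omega
      rw [e1]
      have e2 : (enc U).size ≤ Lb := (h3.hpos U h3.hU).2.2.1
      have e3 := size_enc_list_le (l := P) (M := Lb) (fun p hp => (h3.hpos p hp).2.2.1)
      have e4 := size_enc_list_le (l := N') (M := Lb) (fun p hp => h3.hneg p hp)
      have e5 : P.length * (Lb + 1) ≤ X * τ := Nat.mul_le_mul (by omega) (by omega)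
      have e6 : N'.length * (Lb + 1) ≤ X * τ := Nat.mul_le_mul (by omega) (by omega)
      have e7 : X * 2 ≤ X * τ := Nat.mul_le_mul_left _ hτ2
      have e8 : X * τ * (20 + L.init.size) = 20 * (X * τ) + (X * τ) * L.init.size := by ring
      have e9 : 1 * L.init.size ≤ (X * τ) * L.init.size := Nat.mul_le_mul_right _ (by omega)
      have e10 : τ ≤ X * τ := by nlinarith
      omega

end Pool.Agent.Work.MP_8ec85b_lc
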