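import Pool.Agent.Work.MP_8ec85b_lc.Analysis

/-!
The potential that bounds the number of mistakes caused by constraints.
-/

namespace Pool.Agent.Work.MP_8ec85b_lc

open Finset

def KA (U : List Var) (P : List (List Var)) : Finset Var :=
  U.toFinset.filter (fun u => ∀ p ∈ P, u ∈ p)

def KB (Ω : Finset Var) (P N : List (List Var)) : Finset Var :=
  Ω.filter (fun f => (∀ p ∈ P, f ∉ p) ∧ ∃ n ∈ N, f ∈ n)

def KC (Ω : Finset Var) (U : List Var) (P N : List (List Var)) : Finset (Var × Var) :=
  (U.toFinset ×ˢ Ω).filter (fun q => (∀ p ∈ P, ¬ (q.1 ∈ p ↔ q.2 ∈ p)) ∧ ∃ n ∈ N, (q.1 ∈ n ↔ q.2 ∈ n))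

def Phi (Ω : Finset Var) (U : List Var) (P N : List (List Var)) : ℕ :=
  (KA U P).card + (KB Ω P N).card + (KC Ω U P N).card

theorem KA_cons (U : List Var) (P : List (List Var)) (x : List Var) :
    KA U (x :: P) ⊆ KA U P := by
  intro u
  simp only [KA, mem_filter, List.mem_cons, forall_eq_or_imp]
  exact fun h => ⟨h.1, h.2.2⟩

theorem KB_cons (Ω : Finset Var) (P N : List (List Var)) (x : List Var) :
    KB Ω (x :: P) N ⊆ KB Ω P N := by
  intro u
  simp only [KB, mem_filter, List.mem_cons, forall_eq_or_imp]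
  exact fun h => ⟨h.1, h.2.1.2, h.2.2⟩

theorem KC_cons (Ω : Finset Var) (U : List Var) (P N : List (List Var)) (x : List Var) :
    KC Ω U (x :: P) N ⊆ KC Ω U P N := by
  intro u
  simp only [KC, mem_filter, List.mem_cons, forall_eq_or_imp]
  exact fun h => ⟨h.1, h.2.1.2, h.2.2⟩

theorem Phi_kill (Ω : Finset Var) (U : List Var) (P N : List (List Var)) (x : List Var)
    (hx : ∀ a ∈ x, a ∈ Ω) (hP : ∀ p ∈ P, ∀ a ∈ p, a ∈ Ω) (hv : viol U P N x = true) :
    Phi Ω U (x :: P) N + 1 ≤ Phi Ω U P N := by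
  have hA := card_le_card (KA_cons U P x)
  have hB := card_le_card (KB_cons Ω P N x)
  have hC := card_le_card (KC_cons Ω U P N x)
  unfold Phi
  rcases viol_true hv with ⟨u, hu, h1, h2⟩ | ⟨f, hf, h1, n, hn, h2⟩ | ⟨u, hu, w, hw, h1, h2, n, hn, h3⟩
  · have : KA U (x :: P) ⊂ KA U P := by
      refine (ssubset_iff_of_subset (KA_cons U P x)).2 ⟨u, ?_, ?_⟩
      · simp [KA, hu]; exact h2
      · simp [KA, h1]
    have := card_lt_card this
    omega
  · have : KB Ω (x :: P) N ⊂ KB Ω P N := by
      refine (ssubset_iff_of_subset (KB_cons Ω P N x)).2 ⟨f, ?_, ?_⟩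
      · simp only [KB, mem_filter]
        exact ⟨hx f hf, h1, n, hn, h2⟩
      · simp only [KB, mem_filter, List.mem_cons, forall_eq_or_imp, not_and]
        exact fun _ h => absurd hf h.1
    have := card_lt_card this
    omega
  · have : KC Ω U (x :: P) N ⊂ KC Ω U P N := by
      refine (ssubset_iff_of_subset (KC_cons Ω U P N x)).2 ⟨(u, w), ?_, ?_⟩
      · simp only [KC, mem_filter, mem_product, List.mem_toFinset]
        refine ⟨⟨hu, ?_⟩, h2, n, hn, h3⟩
        rcases hw with hw | ⟨p, hp, hw⟩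
        · exact hx w hw
        · exact hP p hp w hw
      · simp only [KC, mem_filter, List.mem_cons, forall_eq_or_imp, not_and]
        exact fun _ h => absurd h1 h.1
    have := card_lt_card this
    omega

theorem Phi_feed (Ω : Finset Var) (U : List Var) (P N : List (List Var)) (x : List Var) (k : ℕ)
    (hx : x.length ≤ k) (hP : ∀ p ∈ P, p.length ≤ k) (hv : viol U P N x = false) :
    Phi Ω U P (x :: N) ≤ Phi Ω U P N + (k + U.length * k) := by
  obtain ⟨h1, -, -⟩ := viol_false hv
  have hB : (KB Ω P (x :: N)).card ≤ (KB Ω P N).card + k := by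
    have : KB Ω P (x :: N) ⊆ KB Ω P N ∪ x.toFinset := by
      intro f
      simp only [KB, mem_filter, List.mem_cons, exists_eq_or_imp, mem_union, List.mem_toFinset]
      rintro ⟨h, h', h'' | h''⟩
      · exact Or.inr h''
      · exact Or.inl ⟨h, h', h''⟩
    have h2 := card_le_card this
    have h3 := card_union_le (KB Ω P N) x.toFinset
    have h4 := List.toFinset_card_le x
    omega
  have hC : (KC Ω U P (x :: N)).card ≤ (KC Ω U P N).card + U.length * k := by
    classical
    let S : Var → Finset Var := fun u =>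
      if h : ∃ p, (p = x ∨ p ∈ P) ∧ ((u ∈ x ∧ p = x) ∨ (u ∉ x ∧ p ∈ P ∧ u ∉ p)) then
        h.choose.toFinset else ∅
    have hS : ∀ u, (S u).card ≤ k := by
      intro u
      by_cases h : ∃ p, (p = x ∨ p ∈ P) ∧ ((u ∈ x ∧ p = x) ∨ (u ∉ x ∧ p ∈ P ∧ u ∉ p))
      · simp only [S, h, dif_pos]
        have h2 := List.toFinset_card_le h.choose
        rcases h.choose_spec.1 with h3 | h3
        · rw [← h3] at hx; omega
        · have := hP _ h3; omega
      · have h2 : S u = ∅ := dif_neg h
        rw [h2]; simp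
    have : KC Ω U P (x :: N) ⊆ KC Ω U P N ∪ U.toFinset.biUnion (fun u => (S u).image (fun w => (u, w))) := by
      rintro ⟨u, w⟩
      simp only [KC, mem_filter, mem_product, List.mem_toFinset, List.mem_cons, exists_eq_or_imp,
        mem_union, mem_biUnion, mem_image, Prod.mk.injEq]
      rintro ⟨⟨hu, hw⟩, h', h'' | h''⟩
      · right
        refine ⟨u, hu, w, ?_, rfl, rfl⟩
        by_cases hux : u ∈ x
        · have h : ∃ p, (p = x ∨ p ∈ P) ∧ ((u ∈ x ∧ p = x) ∨ (u ∉ x ∧ p ∈ P ∧ u ∉ p)) :=
            ⟨x, Or.inl rfl, Or.inl ⟨hux, rfl⟩⟩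
          simp only [S, h, dif_pos, List.mem_toFinset]
          rcases h.choose_spec.2 with h3 | h3
          · rw [h3.2]; exact h''.1 hux
          · exact absurd hux h3.1
        · obtain ⟨p, hp, hup⟩ := h1 u hu hux
          have h : ∃ p, (p = x ∨ p ∈ P) ∧ ((u ∈ x ∧ p = x) ∨ (u ∉ x ∧ p ∈ P ∧ u ∉ p)) :=
            ⟨p, Or.inr hp, Or.inr ⟨hux, hp, hup⟩⟩
          simp only [S, h, dif_pos, List.mem_toFinset]
          rcases h.choose_spec.2 with h3 | h3
          · exact absurd h3.1 hux
          · have h4 := h' _ h3.2.1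
            by_contra h5
            exact h4 (iff_of_false h3.2.2 h5)
      · left
        exact ⟨⟨hu, hw⟩, h', h''⟩
    have h2 := card_le_card this
    have h3 := card_union_le (KC Ω U P N) (U.toFinset.biUnion (fun u => (S u).image (fun w => (u, w))))
    have h4 : (U.toFinset.biUnion (fun u => (S u).image (fun w => (u, w)))).card ≤ U.toFinset.card * k :=
      card_biUnion_le_card_mul _ _ _ (fun u _ => card_image_le.trans (hS u))
    have h5 := Nat.mul_le_mul_right k (List.toFinset_card_le U)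
    omega
  unfold Phi
  omega

theorem Phi_init (Ω : Finset Var) (U : List Var) (P : List (List Var)) :
    Phi Ω U P [] ≤ U.length := by
  have h1 : KB Ω P [] = ∅ := by simp [KB]
  have h2 : KC Ω U P [] = ∅ := by simp [KC]
  unfold Phi
  rw [h1, h2]
  have h3 : (KA U P).card ≤ U.toFinset.card := card_le_card (filter_subset _ _)
  have h4 := List.toFinset_card_le U
  simp only [card_empty]
  omega

end Pool.Agent.Work.MP_8ec85b_lc
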