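import Pool.Agent.Work.MP_8ec85b_lc.Potential

/-!
Invariant of a run of the infinite-attribute learner.
-/

namespace Pool.Agent.Work.MP_8ec85b_lc

open Finset

theorem final_append {X : Type} (A : Learner X) (es fs : List (X × Bool)) :
    ∀ s, A.final s (es ++ fs) = A.final (A.final s es) fs := by
  induction es with
  | nil => intro s; rfl
  | cons e es ih => intro s; exact ih _

theorem mistakes_append {X : Type} (A : Learner X) (es fs : List (X × Bool)) :
    ∀ s, A.mistakes s (es ++ fs) = A.mistakes s es + A.mistakes (A.final s es) fs := by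
  induction es with
  | nil => intro s; simp [Learner.mistakes, Learner.final]
  | cons e es ih =>
    intro s
    simp only [List.cons_append, Learner.mistakes, Learner.final, ih]
    omega

/-- `st` and `cnt` come from a run of `L` with correct labels -/
def Clean {m : ℕ} (g : (Fin m → Bool) → Bool) (slot : Fin m → Bool → Bool ⊕ Var)
    (L : Learner (List Bool)) (U : List Var) (st : D) (cnt : ℕ) : Prop :=
  ∃ fl : List (Fin (U.length + U.length) → Bool),
    st = L.final L.init (cubeRun (gU g slot U) fl) ∧
    cnt ≤ L.mistakes L.init (cubeRun (gU g slot U) fl)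

theorem Clean.step {m : ℕ} {g : (Fin m → Bool) → Bool} {slot : Fin m → Bool → Bool ⊕ Var}
    {L : Learner (List Bool)} {U : List Var} {st : D} {cnt : ℕ} (h : Clean g slot L U st cnt)
    {x : List Var} {y : Bool} (hy : gU g slot U (bfun U x) = y) (hp : L.pred st (bvec U x) ≠ y) :
    Clean g slot L U (L.upd st (bvec U x) y) (cnt + 1) := by
  obtain ⟨fl, h1, h2⟩ := h
  refine ⟨fl ++ [bfun U x], ?_, ?_⟩
  · unfold cubeRun at h1 ⊢
    rw [List.map_append, final_append, ← h1]
    simp only [List.map_cons, List.map_nil, Learner.final, hy, ofFn_bfun]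
  · unfold cubeRun at h1 h2 ⊢
    rw [List.map_append, mistakes_append, ← h1]
    simp only [List.map_cons, List.map_nil, Learner.mistakes, hy, ofFn_bfun, hp, if_false]
    omega

theorem Clean.init {m : ℕ} (g : (Fin m → Bool) → Bool) (slot : Fin m → Bool → Bool ⊕ Var)
    (L : Learner (List Bool)) (U : List Var) : Clean g slot L U L.init 0 :=
  ⟨[], rfl, Nat.zero_le _⟩

structure Inv {m : ℕ} (g : (Fin m → Bool) → Bool) (slot : Fin m → Bool → Bool ⊕ Var)
    (L : Learner (List Bool)) (Ω : Finset Var) (k Lb B : ℕ)
    (U : List Var) (P N : List (List Var)) (st : D) (cnt j T : ℕ) : Prop where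
  hU : U ∈ P
  hpos : ∀ p ∈ P, target g slot p = true ∧ p.length ≤ k ∧ (enc p).size ≤ Lb ∧ ∀ a ∈ p, a ∈ Ω
  hneg : ∀ n ∈ N, (enc n).size ≤ Lb
  hj : j ≤ B + (Wit slot N).card
  hj' : j + 1 ≤ B + (Wit slot N).card ∨ Clean g slot L U st cnt
  hcnt : cnt ≤ j
  hst : st.size ≤ j ∨ st = L.init
  hF : ∃ F, N.length ≤ F ∧ F ≤ j * (j + 1) + cnt ∧
    T + Phi Ω U P N ≤ 1 + U.length + F * (1 + k + U.length * k)
  hlen : P.length ≤ T

theorem size_enc_st (st : D) (c : ℕ) : (enc (st, c)).size = st.size + (2 * c + 1) + 1 := by
  rw [enc_pair]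
  simp only [D.size, size_enc_nat, enc_D]

theorem Inv.feed {m : ℕ} {g : (Fin m → Bool) → Bool} {slot : Fin m → Bool → Bool ⊕ Var}
    {L : Learner (List Bool)} {Ω : Finset Var} {k Lb B : ℕ}
    {U : List Var} {P N : List (List Var)} {st : D} {cnt j T : ℕ}
    (h : Inv g slot L Ω k Lb B U P N st cnt j T)
    (hclean : ∀ st cnt, Clean g slot L U st cnt → (enc (st, cnt)).size ≤ B)
    {x : List Var} (hxk : x.length ≤ k) (hxL : (enc x).size ≤ Lb)
    (hv : viol U P N x = false) (hp : L.pred st (bvec U x) ≠ target g slot x) :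
    ∃ U' P' N' st' cnt' j', MP_8ec85b_lc.feed L (U, (P, (N, (st, (cnt, j))))) x (target g slot x) =
      (U', (P', (N', (st', (cnt', j'))))) ∧ Inv g slot L Ω k Lb B U' P' N' st' cnt' j' (T + 1) := by
  set y := target g slot x with hy
  set N' : List (List Var) := if y = true then N else x :: N with hN'
  set st' := L.upd st (bvec U x) y with hst'
  have hvalP : ∀ p ∈ P, Valid slot p := fun p hp => (target_true.1 (h.hpos p hp).1).1
  have hvalU : Valid slot U := hvalP U h.hU
  -- the witnesses grow unless the label is clean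
  have key : (Wit slot N).card + 1 ≤ (Wit slot N').card ∨
      ((Wit slot N).card ≤ (Wit slot N').card ∧ gU g slot U (bfun U x) = y) := by
    by_cases hvx : Valid slot x
    · right
      refine ⟨?_, ?_⟩
      · rw [hN']
        split_ifs
        · exact le_refl _
        · exact card_le_card (Wit_mono slot N x)
      · rw [gU_bfun g hvx hvalU, hy]
        simp only [target, pairFn]
        have : decide (∀ i, zx slot x i true ≠ zx slot x i false) = true := by
          exact decide_eq_true hvx
        rw [this, Bool.true_and]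
    · left
      have hyf : y = false := by
        rw [hy, ← Bool.not_eq_true, target_true]
        exact fun h => hvx h.1
      have hN2 : N' = x :: N := by rw [hN', hyf]; simp
      rw [hN2]
      unfold Valid at hvx
      push Not at hvx
      obtain ⟨i, hi⟩ := hvx
      have h1 := not_mem_Wit h.hU hvalP hv hi
      have h2 : insert i (Wit slot N) ⊆ Wit slot (x :: N) := by
        intro l hl
        rcases mem_insert.1 hl with rfl | hl
        · simp only [Wit, mem_filter, mem_univ, true_and]
          exact ⟨x, by simp, hi⟩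
        · exact Wit_mono slot N x hl
      have h3 := card_le_card h2
      rw [card_insert_of_notMem h1] at h3
      exact h3
  have claimA : j + 1 ≤ B + (Wit slot N').card ∨ Clean g slot L U st' (cnt + 1) := by
    rcases key with hk | ⟨hk, hk'⟩
    · left
      have := h.hj
      omega
    · rcases h.hj' with h1 | h1
      · left; omega
      · right; exact h1.step hk' hp
  have hwle : (Wit slot N).card ≤ (Wit slot N').card := by
    rcases key with hk | hk
    · omega
    · exact hk.1
  have hneg' : ∀ n ∈ N', (enc n).size ≤ Lb := by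
    intro n hn
    rw [hN'] at hn
    split_ifs at hn
    · exact h.hneg n hn
    · rcases List.mem_cons.1 hn with rfl | hn
      · exact hxL
      · exact h.hneg n hn
  obtain ⟨F, hF1, hF2, hF3⟩ := h.hF
  have hPhi : Phi Ω U P N' ≤ Phi Ω U P N + (k + U.length * k) := by
    rw [hN']
    split_ifs
    · omega
    · exact Phi_feed Ω U P N x k hxk (fun p hp => (h.hpos p hp).2.1) hv
  have hNlen : N'.length ≤ F + 1 := by
    rw [hN']
    split_ifs
    · omega
    · simp only [List.length_cons]; omega
  have hFT : T + 1 + Phi Ω U P N' ≤ 1 + U.length + (F + 1) * (1 + k + U.length * k) := by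
    rw [Nat.succ_mul]
    omega
  unfold MP_8ec85b_lc.feed
  simp only [← hst', ← hN']
  split_ifs with hcond
  · have hsz : (enc (st', cnt + 1)).size ≤ j := by simpa using hcond
    rw [size_enc_st] at hsz
    refine ⟨U, P, N', st', cnt + 1, j, rfl, ?_⟩
    exact ⟨h.hU, h.hpos, hneg', by have := h.hj; omega, claimA, by omega, Or.inl (by omega),
      ⟨F + 1, hNlen, by omega, hFT⟩, by have := h.hlen; omega⟩
  · have hsz : ¬ (enc (st', cnt + 1)).size ≤ j := by simpa using hcond
    refine ⟨U, P, N', L.init, 0, j + 1, rfl, ?_⟩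
    refine ⟨h.hU, h.hpos, hneg', ?_, Or.inr (Clean.init g slot L U), by omega, Or.inr rfl,
      ⟨F + 1, hNlen, ?_, hFT⟩, by have := h.hlen; omega⟩
    · rcases claimA with h1 | h1
      · exact h1
      · have := hclean _ _ h1
        omega
    · have := h.hcnt
      have h2 : (j + 1) * (j + 1 + 1) = j * (j + 1) + 2 * j + 2 := by ring
      omega

theorem Inv.kill {m : ℕ} {g : (Fin m → Bool) → Bool} {slot : Fin m → Bool → Bool ⊕ Var}
    {L : Learner (List Bool)} {Ω : Finset Var} {k Lb B : ℕ}
    {U : List Var} {P N : List (List Var)} {st : D} {cnt j T : ℕ}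
    (h : Inv g slot L Ω k Lb B U P N st cnt j T)
    {x : List Var} (hxk : x.length ≤ k) (hxL : (enc x).size ≤ Lb) (hxΩ : ∀ a ∈ x, a ∈ Ω)
    (hv : viol U P N x = true) (hy : target g slot x = true) :
    Inv g slot L Ω k Lb B U (x :: P) N st cnt j (T + 1) := by
  obtain ⟨F, hF1, hF2, hF3⟩ := h.hF
  have := Phi_kill Ω U P N x hxΩ (fun p hp => (h.hpos p hp).2.2.2) hv
  refine ⟨List.mem_cons_of_mem _ h.hU, ?_, h.hneg, h.hj, h.hj', h.hcnt, h.hst,
    ⟨F, hF1, hF2, by omega⟩, ?_⟩
  · intro p hp
    rcases List.mem_cons.1 hp with rfl | hp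
    · exact ⟨hy, hxk, hxL, hxΩ⟩
    · exact h.hpos p hp
  · have := h.hlen
    simp only [List.length_cons]; omega

/-- the invariant or the initial situation -/
def Good {m : ℕ} (g : (Fin m → Bool) → Bool) (slot : Fin m → Bool → Bool ⊕ Var)
    (L : Learner (List Bool)) (Ω : Finset Var) (k Lb B : ℕ) (s : St) (T : ℕ) : Prop :=
  (s = sinit L ∧ T = 0) ∨ ∃ U P N st cnt j, s = (U, (P, (N, (st, (cnt, j))))) ∧
    Inv g slot L Ω k Lb B U P N st cnt j T

theorem Good.step {m : ℕ} {g : (Fin m → Bool) → Bool} {slot : Fin m → Bool → Bool ⊕ Var}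
    {L : Learner (List Bool)} {Ω : Finset Var} {k Lb B : ℕ} {s : St} {T : ℕ}
    (h : Good g slot L Ω k Lb B s T)
    (hclean : ∀ U : List Var, U.length ≤ k → ∀ st cnt, Clean g slot L U st cnt →
      (enc (st, cnt)).size ≤ B)
    {x : List Var} (hxk : x.length ≤ k) (hxL : (enc x).size ≤ Lb) (hxΩ : ∀ a ∈ x, a ∈ Ω) :
    Good g slot L Ω k Lb B (supd L s x (target g slot x))
      (T + if spred L s x = target g slot x then 0 else 1) := by
  unfold supd
  by_cases hm : spred L s x = target g slot x
  · rw [if_pos (by simpa using hm), if_pos hm]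
    exact h
  · rw [if_neg (by simpa using hm), if_neg hm]
    rcases h with ⟨rfl, rfl⟩ | ⟨U, P, N, st, cnt, j, rfl, h⟩
    · have h1 : spred L (sinit L) x = false := rfl
      rw [h1] at hm
      have hy : target g slot x = true := by
        cases hc : target g slot x
        · exact absurd hc.symm hm
        · rfl
      right
      refine ⟨x, [x], [], L.init, 0, 0, by simp [sinit], ?_⟩
      have := Phi_init Ω x [x]
      refine ⟨by simp, ?_, by simp, by omega, Or.inr (Clean.init g slot L x), le_refl _,
        Or.inr rfl, ⟨0, by simp, by simp, by omega⟩, by simp⟩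
      intro p hp
      rw [List.mem_singleton.1 hp]
      exact ⟨hy, hxk, hxL, hxΩ⟩
    · have hPne : P.isEmpty = false := by
        cases P with
        | nil => exact absurd h.hU (by simp)
        | cons p P => rfl
      have hUk : U.length ≤ k := (h.hpos U h.hU).2.1
      simp only [hPne, Bool.false_eq_true, if_false]
      unfold spred at hm
      simp only [hPne, Bool.false_eq_true, if_false] at hm
      right
      by_cases hv : viol U P N x = true
      · simp only [hv, if_true] at hm ⊢
        have hy : target g slot x = true := by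
          cases hc : target g slot x
          · exact absurd hc.symm hm
          · rfl
        exact ⟨U, x :: P, N, st, cnt, j, rfl, h.kill hxk hxL hxΩ hv hy⟩
      · have hv' : viol U P N x = false := by simpa using hv
        simp only [hv', Bool.false_eq_true, if_false] at hm ⊢
        exact h.feed (hclean U hUk) hxk hxL hv' hm

theorem good_run {m : ℕ} {g : (Fin m → Bool) → Bool} {slot : Fin m → Bool → Bool ⊕ Var}
    {L : Learner (List Bool)} {Ω : Finset Var} {k Lb B : ℕ}
    (hclean : ∀ U : List Var, U.length ≤ k → ∀ st cnt, Clean g slot L U st cnt →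
      (enc (st, cnt)).size ≤ B) (xs : List (List Var))
    (hxs : ∀ x ∈ xs, x.length ≤ k ∧ (enc x).size ≤ Lb ∧ ∀ a ∈ x, a ∈ Ω) :
    ∀ (s : St) (T : ℕ), Good g slot L Ω k Lb B s T →
      Good g slot L Ω k Lb B
        (tfinal (supd L) s (xs.map (fun x => (x, target g slot x))))
        (T + tmistakes (spred L) (supd L) s (xs.map (fun x => (x, target g slot x)))) := by
  induction xs with
  | nil => intro s T h; exact h
  | cons x xs ih =>
    intro s T h
    have hx := hxs x (by simp)
    have h1 := h.step hclean hx.1 hx.2.1 hx.2.2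
    have h2 := ih (fun y hy => hxs y (by simp [hy])) _ _ h1
    simp only [List.map_cons, tfinal, tmistakes]
    rw [← add_assoc]
    exact h2

end Pool.Agent.Work.MP_8ec85b_lc
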