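import Pool.Agent.Work.MP_8ec85b_lc.Classes

/-!
Transfer of learners along feasible maps of examples: from the infinite-attribute model to the
cube, and from the paired class to the class.
-/

namespace Pool.Agent.Work.MP_8ec85b_lc

section comap
variable {X Y : Type} [Enc X] [Enc Y]

def Learner.comap (A : Learner X) (φ : Y → X) : Learner Y :=
  ⟨A.init, fun s y => A.pred s (φ y), fun s y b => A.upd s (φ y) b⟩

theorem Learner.Feasible.comap {A : Learner X} (hA : A.Feasible) {φ : Y → X} (hφ : Poly φ) :
    (A.comap φ).Feasible := by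
  refine ⟨?_, ?_⟩
  · exact Poly.comp (f := fun q : D × X => A.pred q.1 q.2) hA.1
      (Poly.pair (Poly.fst Poly.id') (Poly.comp hφ (Poly.snd Poly.id')))
  · exact Poly.comp (f := fun q : D × (X × Bool) => A.upd q.1 q.2.1 q.2.2) hA.2
      (Poly.pair (Poly.fst Poly.id') (Poly.pair (Poly.comp hφ (Poly.fst (Poly.snd Poly.id')))
        (Poly.snd (Poly.snd Poly.id'))))

omit [Enc X] [Enc Y] in
theorem Learner.final_comap (A : Learner X) (φ : Y → X) (es : List (Y × Bool)) :
    ∀ s, (A.comap φ).final s es = A.final s (es.map (fun e => (φ e.1, e.2))) := by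
  induction es with
  | nil => intro s; rfl
  | cons e es ih => intro s; exact ih _

omit [Enc X] [Enc Y] in
theorem Learner.mistakes_comap (A : Learner X) (φ : Y → X) (es : List (Y × Bool)) :
    ∀ s, (A.comap φ).mistakes s es = A.mistakes s (es.map (fun e => (φ e.1, e.2))) := by
  induction es with
  | nil => intro s; rfl
  | cons e es ih =>
    intro s
    simp only [Learner.mistakes, List.map_cons]
    rw [ih]; rfl

end comap

theorem ae_of_paired (G : ConceptClass) (hP : G.ProjectionClosed) (hR : G.FewRelevant)
    (h : (paired G).AELearnable) : G.AELearnable := by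
  obtain ⟨A, hA, k, hk⟩ := h
  obtain ⟨k0, hk0⟩ := hR
  have hφ : Poly (fun l : List Bool => l ++ l.map (fun b => !b)) :=
    Poly.append Poly.id' (Poly.map (f := fun _ b => !b) Poly.id' (Poly.not (Poly.fst Poly.id')))
  refine ⟨A.comap _, hA.comap hφ, (k0 + 3) * k, fun n g hg xs => ?_⟩
  obtain ⟨c, hc, hs, hcg⟩ := exists_paired hP g hg
  have hrun : (cubeRun g xs).map (fun e => (e.1 ++ e.1.map (fun b => !b), e.2)) =
      cubeRun c (xs.map dbl) := by
    simp only [cubeRun, List.map_map]
    apply List.map_congr_left
    intro x _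
    simp only [Function.comp, hcg]
    congr 1
    unfold dbl
    rw [List.ofFn_fin_append, List.map_ofFn]
    rfl
  have h1 := hk _ c hc (xs.map dbl)
  rw [← hrun] at h1
  have h2 := hk0 n g hg
  set s := G.size n g with hs'
  set S := (paired G).size (n + n) c
  rw [Learner.final_comap, Learner.mistakes_comap]
  have hP1 : 1 ≤ (s + 2) ^ k0 := Nat.one_le_pow _ _ (by omega)
  have hS : S ≤ s + 2 * (s + 2) ^ k0 := by omega
  have e1 : S + 2 ≤ (s + 2) ^ (k0 + 3) := by
    have : (s + 2) ^ (k0 + 3) = (s + 2) ^ k0 * (s + 2) ^ 3 := pow_add _ _ _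
    rw [this]
    have h3 : (s + 2) ^ 3 ≥ 4 * (s + 2) := by nlinarith [sq_nonneg s]
    nlinarith
  have e2 : Nat.log 2 (n + n) + 2 ≤ (Nat.log 2 n + 2) ^ (k0 + 3) := by
    have h3 : Nat.log 2 (n + n) ≤ Nat.log 2 n + 1 := by
      rcases Nat.eq_zero_or_pos n with rfl | hn
      · simp
      · have : n + n = n * 2 := by ring
        rw [this, Nat.log_mul_base (by norm_num) (by omega)]
    calc Nat.log 2 (n + n) + 2 ≤ (Nat.log 2 n + 2) ^ 2 := by nlinarith
      _ ≤ _ := pow_le_of_le (by omega)
  have e3 : n + n + S + 2 ≤ (n + s + 2) ^ (k0 + 3) := by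
    have h4 : (s + 2) ^ k0 ≤ (n + s + 2) ^ k0 := Nat.pow_le_pow_left (by omega) _
    have : (n + s + 2) ^ (k0 + 3) = (n + s + 2) ^ k0 * (n + s + 2) ^ 3 := pow_add _ _ _
    rw [this]
    have h3 : (n + s + 2) ^ 3 ≥ 4 * (n + s + 2) := by nlinarith [sq_nonneg (n + s)]
    nlinarith
  refine ⟨h1.1.trans ?_, h1.2.trans ?_⟩
  · rw [pow_mul, pow_mul]
    exact Nat.mul_le_mul (Nat.pow_le_pow_left e1 _) (Nat.pow_le_pow_left e2 _)
  · rw [pow_mul]
    exact Nat.pow_le_pow_left e3 _

/-- the pair (unary name of the length, list of names of the true bits) -/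
def convAux (l : List Bool) : Var × List Var :=
  l.foldr (fun b c => (true :: c.1, if b = true then c.1 :: c.2 else c.2)) (([] : Var), ([] : List Var))

def conv (l : List Bool) : List Var := (convAux l).2

theorem convAux_fst (l : List Bool) : (convAux l).1 = List.replicate l.length true := by
  induction l with
  | nil => rfl
  | cons b l ih =>
    show true :: (convAux l).1 = _
    rw [ih]; rfl

theorem conv_cons (b : Bool) (l : List Bool) :
    conv (b :: l) = if b = true then List.replicate l.length true :: conv l else conv l := by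
  show (if b = true then (convAux l).1 :: (convAux l).2 else (convAux l).2) = _
  rw [convAux_fst]; rfl

theorem mem_conv (l : List Bool) (w : Var) :
    w ∈ conv l ↔ ∃ j, w = List.replicate j true ∧ l.reverse[j]? = some true := by
  induction l with
  | nil => simp [conv, convAux]
  | cons b l ih =>
    rw [conv_cons]
    have h1 : ∀ j, (b :: l).reverse[j]? = some true ↔
        (l.reverse[j]? = some true ∨ (j = l.length ∧ b = true)) := by
      intro j
      rw [List.reverse_cons]
      rcases lt_trichotomy j l.length with h | h | h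
      · rw [List.getElem?_append_left (by simpa using h)]
        constructor
        · intro h2; exact Or.inl h2
        · rintro (h2 | ⟨h2, _⟩)
          · exact h2
          · omega
      · subst h
        rw [List.getElem?_append_right (by simp)]
        simp
      · rw [List.getElem?_append_right (by simp; omega)]
        have h2 : l.reverse[j]? = none := List.getElem?_eq_none (by simp; omega)
        have h3 : ([b] : List Bool)[j - l.reverse.length]? = none :=
          List.getElem?_eq_none (by simp; omega)
        rw [h2, h3]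
        simp; omega
    simp only [h1]
    split_ifs with hb
    · rw [List.mem_cons, ih]
      constructor
      · rintro (h | ⟨j, h, h'⟩)
        · exact ⟨l.length, h, Or.inr ⟨rfl, hb⟩⟩
        · exact ⟨j, h, Or.inl h'⟩
      · rintro ⟨j, h, h' | ⟨rfl, _⟩⟩
        · exact Or.inr ⟨j, h, h'⟩
        · exact Or.inl h
    · rw [ih]
      constructor
      · rintro ⟨j, h, h'⟩
        exact ⟨j, h, Or.inl h'⟩
      · rintro ⟨j, h, h' | ⟨_, h'⟩⟩
        · exact ⟨j, h, h'⟩
        · exact absurd h' hb

theorem length_of_mem_conv {l : List Bool} {w : Var} (h : w ∈ conv l) : w.length < l.length := by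
  rw [mem_conv] at h
  obtain ⟨j, rfl, h⟩ := h
  have := List.getElem?_eq_some_iff.1 h
  obtain ⟨h, _⟩ := this
  simpa using h

theorem nodup_conv (l : List Bool) : (conv l).Nodup := by
  induction l with
  | nil => simp [conv, convAux]
  | cons b l ih =>
    rw [conv_cons]
    split_ifs with hb
    · rw [List.nodup_cons]
      refine ⟨fun h => ?_, ih⟩
      have := length_of_mem_conv h
      simp at this
    · exact ih

theorem length_conv_le (l : List Bool) : (conv l).length ≤ l.length := by
  induction l with
  | nil => simp [conv, convAux]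
  | cons b l ih =>
    rw [conv_cons]
    split_ifs <;> simp <;> omega

theorem size_enc_bits (l : List Bool) : (enc l).size ≤ 4 * l.length + 1 := by
  have := size_enc_list_le (M := 3) (l := l) (fun b _ => enc_bool_size_le b)
  omega

theorem poly_conv : Poly conv := by
  have := Poly.foldr (α := List Bool) (l := fun l => l) (g := fun _ => (([] : Var), ([] : List Var)))
    (f := fun b c _ => (true :: c.1, if b = true then c.1 :: c.2 else c.2))
    (Poly.pair (Poly.lcons (Poly.const true) (Poly.fst (Poly.fst (Poly.snd Poly.id'))))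
      (Poly.ite (Poly.fst Poly.id') (Poly.lcons (Poly.fst (Poly.fst (Poly.snd Poly.id')))
        (Poly.snd (Poly.fst (Poly.snd Poly.id')))) (Poly.snd (Poly.fst (Poly.snd Poly.id')))))
    (Poly.const _) Poly.id'
    ⟨4, fun l t ht => by
      show (enc (convAux t)).size ≤ _
      have h1 : enc (convAux t) = D.cons (enc (convAux t).1) (enc (convAux t).2) := rfl
      rw [h1]
      simp only [D.size]
      have h2 : (enc (convAux t).1).size ≤ 4 * t.length + 1 := by
        have := size_enc_bits (convAux t).1
        rwa [convAux_fst, List.length_replicate, ← convAux_fst] at this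
      have h3 : (enc (convAux t).2).size ≤ t.length * (4 * t.length + 1 + 1) + 1 := by
        have h4 : ∀ w ∈ conv t, (enc w).size ≤ 4 * t.length + 1 := by
          intro w hw
          have h5 := size_enc_bits w
          have h6 := length_of_mem_conv hw
          omega
        have h5 := size_enc_list_le h4
        have h6 := length_conv_le t
        calc _ ≤ _ := h5
          _ ≤ _ := by
            have := Nat.mul_le_mul_right (4 * t.length + 1 + 1) h6
            omega
      have h4 := length_le_size_enc t
      have h5 := size_enc_suffix_le ht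
      set s := (enc l).size
      have h6 : t.length ≤ s := by omega
      have h7 : t.length * (4 * t.length + 1 + 1) ≤ s * (4 * s + 2) :=
        Nat.mul_le_mul h6 (by omega)
      have h8 : (s + 2) ^ 4 = (s + 2) ^ 2 * (s + 2) ^ 2 := by ring
      have h9 : 4 ≤ (s + 2) ^ 2 := by nlinarith
      have h10 : 4 * (s + 2) ^ 2 ≤ (s + 2) ^ 4 := by
        rw [h8]; exact Nat.mul_le_mul_right _ h9
      nlinarith⟩
  exact Poly.snd this

theorem mb_of_ia (C : ConceptClass) (h : C.IALearnable) : C.MBLearnable := by
  obtain ⟨A, hA, k, hk⟩ := h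
  obtain ⟨m, hm⟩ := Poly.bound poly_conv
  refine ⟨A.comap conv, hA.comap poly_conv, (3 * m + 2) * k, fun n c hc xs => ?_⟩
  let v : Fin n → Var := fun i => List.replicate (n - 1 - i) true
  have hv : Function.Injective v := by
    intro i j hij
    have := congrArg List.length hij
    simp only [v, List.length_replicate] at this
    have h1 := i.isLt
    have h2 := j.isLt
    exact Fin.ext (by omega)
  have hmem : ∀ (x : Fin n → Bool) (i : Fin n), v i ∈ conv (List.ofFn x) ↔ x i = true := by
    intro x i
    rw [mem_conv]
    have hi := i.isLt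
    have h1 : (List.ofFn x).reverse[n - 1 - (i : ℕ)]? = some (x i) := by
      rw [List.getElem?_reverse (by simp; omega)]
      rw [List.getElem?_eq_some_iff]
      refine ⟨by simp; omega, ?_⟩
      rw [List.getElem_ofFn]
      congr 1
      apply Fin.ext
      simp only [List.length_ofFn]
      omega
    constructor
    · rintro ⟨j, hj, hj'⟩
      have := congrArg List.length hj
      simp only [v, List.length_replicate] at this
      rw [← this, h1] at hj'
      simpa using hj'
    · intro hx
      exact ⟨n - 1 - i, rfl, by rw [h1, hx]⟩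
  have hrun : (cubeRun c xs).map (fun e => (conv e.1, e.2)) =
      infRun c v (xs.map (fun x => conv (List.ofFn x))) := by
    simp only [cubeRun, infRun, List.map_map]
    apply List.map_congr_left
    intro x _
    simp only [Function.comp]
    congr 2
    funext i
    have h2 := hmem x i
    rcases hx : x i with _ | _
    · exact (decide_eq_false (fun h => by rw [h2.1 h] at hx; exact Bool.noConfusion hx)).symm
    · exact (decide_eq_true (h2.2 hx)).symm
  have h1 := hk n c hc v hv (xs.map (fun x => conv (List.ofFn x))) n ((4 * n + 1 + 2) ^ m) (by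
    intro y hy
    obtain ⟨x, _, rfl⟩ := List.mem_map.1 hy
    refine ⟨nodup_conv _, ?_, ?_⟩
    · have := length_conv_le (List.ofFn x)
      simpa using this
    · have h2 := hm (List.ofFn x)
      have h3 := size_enc_bits (List.ofFn x)
      rw [List.length_ofFn] at h3
      exact h2.trans (Nat.pow_le_pow_left (by omega) _))
  rw [← hrun] at h1
  rw [Learner.final_comap, Learner.mistakes_comap]
  set s := C.size n c
  have e1 : (n + s + 2) ≤ (n + s + 2) ^ (3 * m + 2) := by
    calc (n + s + 2) = (n + s + 2) ^ 1 := (pow_one _).symm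
      _ ≤ _ := pow_le_of_le (by omega)
  have e2 : (4 * n + 1 + 2) ^ m + s + 2 ≤ (n + s + 2) ^ (3 * m + 2) := by
    have h3 : 4 * n + 1 + 2 ≤ (n + s + 2) ^ 3 := by
      have : (n + 2) ^ 3 ≤ (n + s + 2) ^ 3 := Nat.pow_le_pow_left (by omega) _
      nlinarith [sq_nonneg n]
    have h4 : (4 * n + 1 + 2) ^ m ≤ ((n + s + 2) ^ 3) ^ m := Nat.pow_le_pow_left h3 _
    rw [← pow_mul] at h4
    have h5 : (n + s + 2) ^ (3 * m + 2) = (n + s + 2) ^ (3 * m) * (n + s + 2) ^ 2 := pow_add _ _ _
    rw [h5]
    have h6 : 1 ≤ (n + s + 2) ^ (3 * m) := Nat.one_le_pow _ _ (by omega)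
    have h7 : 2 * (n + s + 2) ≤ (n + s + 2) ^ 2 := by nlinarith
    nlinarith
  refine ⟨h1.1.trans ?_, h1.2.trans ?_⟩
  · rw [pow_mul]
    exact Nat.pow_le_pow_left e1 _
  · rw [pow_mul]
    exact Nat.pow_le_pow_left e2 _

end Pool.Agent.Work.MP_8ec85b_lc
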